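import Pool.Agent.TH237.RT.Lim

/-! Smooth approximately harmonic functions for the steps `-log 2`, `log (3/2)`: convergence with
every power of the scale. -/

set_option autoImplicit false

namespace Pool.Agent.P8H74.SM

open Pool.Agent.TH237.RT

theorem E_congr (n : ℕ) : ∀ g h : ℕ → ℝ, (∀ j, j ≤ n → g j = h j) → E n g = E n h := by
  induction n with
  | zero => intro g h hgh; rw [E_zero, E_zero]; exact hgh 0 le_rfl
  | succ n ih =>
    intro g h hgh
    rw [E_succ, E_succ, ih g h (fun j hj => hgh j (by omega)),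
      ih (fun j => g (j + 1)) (fun j => h (j + 1)) (fun j hj => hgh (j + 1) (by omega))]

/-- iteration of the harmonic relation, general form -/
theorem iterG {H : ℝ → ℝ} {ε m : ℝ}
    (h : ∀ x, m ≤ x → |H x - (H (x - Real.log 2) + H (x + Real.log (3 / 2))) / 2| ≤ ε) (n : ℕ) :
    ∀ t : ℝ, m ≤ t - n * Real.log 2 →
      |H t - E n (fun j => H (t + n * Real.log (3 / 2) - j * Real.log 3))| ≤ n * ε := by
  have ha := a_bd
  have hc := c_bd
  have hb := b_eq
  induction n with
  | zero =>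
    intro t ht
    rw [E_zero]
    simp
  | succ n ih =>
    intro t ht
    push_cast at ht
    have hn : (0 : ℝ) ≤ n := Nat.cast_nonneg n
    have h1 : m ≤ t := by nlinarith
    have h2 := h t h1
    have h3 := ih (t - Real.log 2) (by linarith)
    have h4 := ih (t + Real.log (3 / 2)) (by rw [hb]; linarith)
    rw [E_succ]
    have e1 : (fun j : ℕ => H (t + ((n + 1 : ℕ) : ℝ) * Real.log (3 / 2) - j * Real.log 3)) =
        fun j : ℕ => H (t + Real.log (3 / 2) + n * Real.log (3 / 2) - j * Real.log 3) := by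
      funext j; congr 1; push_cast; ring
    have e2 : (fun j : ℕ => H (t + ((n + 1 : ℕ) : ℝ) * Real.log (3 / 2) -
        ((j + 1 : ℕ) : ℝ) * Real.log 3)) =
        fun j : ℕ => H (t - Real.log 2 + n * Real.log (3 / 2) - j * Real.log 3) := by
      funext j; congr 1; rw [hb]; push_cast; ring
    rw [e1, e2]
    set A := E n (fun j => H (t - Real.log 2 + n * Real.log (3 / 2) - j * Real.log 3))
    set B := E n (fun j => H (t + Real.log (3 / 2) + n * Real.log (3 / 2) - j * Real.log 3))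
    rw [abs_le] at h2 h3 h4 ⊢
    push_cast
    constructor
    · linarith [h2.1, h3.1, h4.1]
    · linarith [h2.2, h3.2, h4.2]

/-- the shift by `log 3` -/
theorem shiftG {H : ℝ → ℝ} {ε m M : ℝ} (hM : 0 < M)
    (h : ∀ x, m ≤ x → |H x - (H (x - Real.log 2) + H (x + Real.log (3 / 2))) / 2| ≤ ε)
    (hb : ∀ x, m ≤ x → |H x| ≤ M) (n : ℕ) (t : ℝ) (ht : m ≤ t - n * Real.log 2) :
    |H (t + Real.log 3) - H t| ≤ 2 * M / √((n : ℝ) + 1) + 2 * (n * ε) := by
  have ha := a_bd
  have hc := c_bd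
  have hbe := b_eq
  have hn : (0 : ℝ) ≤ n := Nat.cast_nonneg n
  have h1 := iterG h n t ht
  have h2 := iterG h n (t + Real.log 3) (by linarith)
  set g : ℕ → ℝ := fun j => if j ≤ n + 1 then
    H (t + Real.log 3 + n * Real.log (3 / 2) - j * Real.log 3) / M else 0 with hg
  have e1 : E n (fun j => H (t + Real.log 3 + n * Real.log (3 / 2) - j * Real.log 3)) =
      M * E n g := by
    have := E_lin n M 0 g g
    have e : E n (fun j => M * g j + 0 * g j) = M * E n g := by rw [this]; ring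
    rw [← e]
    apply E_congr
    intro j hj
    rw [hg]
    simp only
    rw [if_pos (by omega)]
    field_simp
    ring
  have e2 : E n (fun j => H (t + n * Real.log (3 / 2) - j * Real.log 3)) =
      M * E n (fun j => g (j + 1)) := by
    have := E_lin n M 0 (fun j => g (j + 1)) (fun j => g (j + 1))
    have e : E n (fun j => M * g (j + 1) + 0 * g (j + 1)) = M * E n (fun j => g (j + 1)) := by
      rw [this]; ring
    rw [← e]
    apply E_congr
    intro j hj
    rw [hg]
    simp only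
    rw [if_pos (by omega)]
    have e3 : t + Real.log 3 + n * Real.log (3 / 2) - ((j + 1 : ℕ) : ℝ) * Real.log 3 =
        t + n * Real.log (3 / 2) - j * Real.log 3 := by push_cast; ring
    rw [e3]
    field_simp
    ring
  have hg1 : ∀ j, |g j| ≤ 1 := by
    intro j
    rw [hg]
    simp only
    by_cases hj : j ≤ n + 1
    · rw [if_pos hj, abs_div, abs_of_pos hM, div_le_one hM]
      apply hb
      have hj' : (j : ℝ) ≤ n + 1 := by exact_mod_cast hj
      have : (j : ℝ) * Real.log 3 ≤ (n + 1) * Real.log 3 := by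
        apply mul_le_mul_of_nonneg_right hj' (by linarith)
      rw [hbe]
      nlinarith
    · rw [if_neg hj]; simp
  have h3 := E_shift n g hg1
  rw [e1] at h2
  rw [e2] at h1
  have h4 : |M * E n g - M * E n (fun j => g (j + 1))| ≤ 2 * M / √((n : ℝ) + 1) := by
    rw [← mul_sub, abs_mul, abs_of_pos hM]
    calc M * |E n g - E n (fun j => g (j + 1))| ≤ M * (2 / √((n : ℝ) + 1)) :=
          mul_le_mul_of_nonneg_left h3 hM.le
      _ = _ := by ring
  rw [abs_le] at h1 h2 h4 ⊢
  constructor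
  · linarith [h1.1, h1.2, h2.1, h2.2, h4.1, h4.2]
  · linarith [h1.1, h1.2, h2.1, h2.2, h4.1, h4.2]

/-- a function, its derivatives, bounds, approximate harmonicity to all orders -/
structure Tower (M : ℕ → ℝ) (K : ℕ → ℕ → ℝ) (G : ℕ → ℝ → ℝ) : Prop where
  der : ∀ k t, HasDerivAt (G k) (G (k + 1) t) t
  bd : ∀ k t, 0 ≤ t → |G k t| ≤ M k
  harm : ∀ k B t, 1 ≤ t →
    |G k t - (G k (t - Real.log 2) + G k (t + Real.log (3 / 2))) / 2| ≤ K k B / t ^ B

/-- the function with index `k` is `O(N^(-i))` for `t ≥ A N^30` -/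
def Dec (M : ℕ → ℝ) (K : ℕ → ℕ → ℝ) (k i : ℕ) : Prop :=
  ∃ A C : ℝ, 1 ≤ A ∧ 0 < C ∧ ∀ G : ℕ → ℝ → ℝ, Tower M K G → ∀ N : ℕ, 1 ≤ N → ∀ t : ℝ,
    A * (N : ℝ) ^ 30 ≤ t → |G k t| ≤ C / (N : ℝ) ^ i

variable {M : ℕ → ℝ} {K : ℕ → ℕ → ℝ}

theorem dec_zero (k : ℕ) : Dec M K k 0 := by
  refine ⟨1, |M k| + 1, le_rfl, by positivity, fun G hG N hN t ht => ?_⟩
  have hN1 : (1 : ℝ) ≤ N := by exact_mod_cast hN
  have h1 : (0 : ℝ) ≤ (N : ℝ) ^ 30 := by positivity
  have h2 := hG.bd k t (by linarith)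
  rw [pow_zero, div_one]
  have := le_abs_self (M k)
  linarith

theorem dec_step {k i : ℕ} (h0 : Dec M K k i) (h2 : Dec M K (k + 2) i) : Dec M K (k + 1) (i + 1) := by
  obtain ⟨A0, C0, hA0, hC0, hd0⟩ := h0
  obtain ⟨A2, C2, hA2, hC2, hd2⟩ := h2
  obtain ⟨c0, hc0, hmeas⟩ := Pool.Agent.H319R2.measure
  have ha := a_bd
  have hc := c_bd
  have hbe := b_eq
  set KB : ℝ := |K k (i + 2)| with hKB
  have hKB0 : 0 ≤ KB := abs_nonneg _
  set C1 : ℝ := 2 * C0 + KB * 4 ^ (i + 2) + KB with hC1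
  have hC1p : 0 < C1 := by positivity
  refine ⟨8 * (A0 + A2) + 16, 4 ^ 14 * C1 / c0 + C2, by linarith, by positivity, ?_⟩
  intro G hG N hN t ht
  have hN1 : (1 : ℝ) ≤ N := by exact_mod_cast hN
  have hNp : (0 : ℝ) < N := by linarith
  have hN30 : (1 : ℝ) ≤ (N : ℝ) ^ 30 := one_le_pow₀ hN1
  have hNN30 : (N : ℝ) ≤ (N : ℝ) ^ 30 := le_self_pow₀ hN1 (by norm_num)
  have ht16 : 16 * (N : ℝ) ^ 30 ≤ t := by nlinarith
  have htA : ∀ x, t / 8 ≤ x → A0 * (N : ℝ) ^ 30 ≤ x ∧ A2 * (N : ℝ) ^ 30 ≤ x := by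
    intro x hx
    constructor <;> nlinarith
  have ht0 : 16 ≤ t := by linarith
  -- bounds of the functions
  have b0 : ∀ x, t / 8 ≤ x → |G k x| ≤ C0 / (N : ℝ) ^ i := fun x hx => hd0 G hG N hN x (htA x hx).1
  have b2 : ∀ x, t / 8 ≤ x → |G (k + 2) x| ≤ C2 / (N : ℝ) ^ i :=
    fun x hx => hd2 G hG N hN x (htA x hx).2
  have hpi : (0 : ℝ) < (N : ℝ) ^ (i + 15) := by positivity
  -- the error of harmonicity
  have herr : ∀ x, t / 2 ≤ x → KB / x ^ (i + 2) ≤ KB / (N : ℝ) ^ (i + 15) := by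
    intro x hx
    apply div_le_div_of_nonneg_left hKB0 hpi
    have h1 : (N : ℝ) ^ 30 ≤ x := by linarith
    calc (N : ℝ) ^ (i + 15) ≤ (N : ℝ) ^ (30 * (i + 2)) := pow_le_pow_right₀ hN1 (by omega)
      _ = ((N : ℝ) ^ 30) ^ (i + 2) := by rw [pow_mul]
      _ ≤ x ^ (i + 2) := pow_le_pow_left₀ (by positivity) h1 _
  -- shift by `log 3`
  have s3 : ∀ x, t / 2 ≤ x → |G k (x + Real.log 3) - G k x| ≤
      (2 * C0 + KB * 4 ^ (i + 2)) / (N : ℝ) ^ (i + 15) := by
    intro x hx
    set n := ⌊x / 2⌋₊ with hn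
    have hx0 : 0 < x := by linarith
    have hn1 : (n : ℝ) ≤ x / 2 := Nat.floor_le (by positivity)
    have hn2 : x / 2 < n + 1 := Nat.lt_floor_add_one _
    have hn0 : (0 : ℝ) ≤ n := Nat.cast_nonneg n
    have hx4 : 1 ≤ x / 4 := by linarith
    have key := shiftG (H := G k) (ε := KB / (x / 4) ^ (i + 2)) (m := x / 4)
      (M := C0 / (N : ℝ) ^ i) (by positivity)
      (fun y hy => by
        have h1 := hG.harm k (i + 2) y (by linarith)
        refine h1.trans ?_
        have hy0 : 0 < y := by linarith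
        calc K k (i + 2) / y ^ (i + 2) ≤ KB / y ^ (i + 2) :=
              div_le_div_of_nonneg_right (le_abs_self _) (by positivity)
          _ ≤ KB / (x / 4) ^ (i + 2) := by
              apply div_le_div_of_nonneg_left hKB0 (by positivity)
              exact pow_le_pow_left₀ (by positivity) hy _)
      (fun y hy => b0 y (by linarith)) n x (by nlinarith)
    refine key.trans ?_
    have hs : (N : ℝ) ^ 15 ≤ √((n : ℝ) + 1) := by
      apply Real.le_sqrt_of_sq_le
      rw [← pow_mul, show 15 * 2 = 30 from rfl]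
      linarith
    have hs0 : (0 : ℝ) < (N : ℝ) ^ 15 := by positivity
    have g1 : 2 * (C0 / (N : ℝ) ^ i) / √((n : ℝ) + 1) ≤ 2 * C0 / (N : ℝ) ^ (i + 15) := by
      calc 2 * (C0 / (N : ℝ) ^ i) / √((n : ℝ) + 1) ≤ 2 * (C0 / (N : ℝ) ^ i) / (N : ℝ) ^ 15 :=
            div_le_div_of_nonneg_left (by positivity) hs0 hs
        _ = _ := by rw [pow_add]; field_simp
    have g2 : 2 * ((n : ℝ) * (KB / (x / 4) ^ (i + 2))) ≤ KB * 4 ^ (i + 2) / (N : ℝ) ^ (i + 15) := by
      have e1 : KB / (x / 4) ^ (i + 2) = KB * 4 ^ (i + 2) / x ^ (i + 2) := by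
        rw [div_pow, div_div_eq_mul_div]
      have h1 : (N : ℝ) ^ 30 ≤ x := by linarith
      have h2 : x * (N : ℝ) ^ (i + 15) ≤ x ^ (i + 2) := by
        have : (N : ℝ) ^ (i + 15) ≤ x ^ (i + 1) := by
          calc (N : ℝ) ^ (i + 15) ≤ (N : ℝ) ^ (30 * (i + 1)) := pow_le_pow_right₀ hN1 (by omega)
            _ = ((N : ℝ) ^ 30) ^ (i + 1) := by rw [pow_mul]
            _ ≤ x ^ (i + 1) := pow_le_pow_left₀ (by positivity) h1 _
        calc x * (N : ℝ) ^ (i + 15) ≤ x * x ^ (i + 1) := mul_le_mul_of_nonneg_left this hx0.le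
          _ = x ^ (i + 2) := by ring
      rw [e1, ← mul_assoc, mul_div_assoc', div_le_div_iff₀ (by positivity) hpi]
      have h3 : 2 * (n : ℝ) ≤ x := by linarith
      calc 2 * (n : ℝ) * (KB * 4 ^ (i + 2)) * (N : ℝ) ^ (i + 15)
          ≤ x * (KB * 4 ^ (i + 2)) * (N : ℝ) ^ (i + 15) := by gcongr
        _ = (KB * 4 ^ (i + 2)) * (x * (N : ℝ) ^ (i + 15)) := by ring
        _ ≤ (KB * 4 ^ (i + 2)) * x ^ (i + 2) := mul_le_mul_of_nonneg_left h2 (by positivity)
    calc _ ≤ 2 * C0 / (N : ℝ) ^ (i + 15) + KB * 4 ^ (i + 2) / (N : ℝ) ^ (i + 15) := add_le_add g1 g2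
      _ = _ := by ring
  have e0 : C1 / (N : ℝ) ^ (i + 15) =
      (2 * C0 + KB * 4 ^ (i + 2)) / (N : ℝ) ^ (i + 15) + KB / (N : ℝ) ^ (i + 15) := by
    rw [hC1]; ring
  have hpos2 : 0 ≤ KB / (N : ℝ) ^ (i + 15) := by positivity
  have s3' : ∀ x, t / 2 ≤ x → |G k (x + Real.log 3) - G k x| ≤ C1 / (N : ℝ) ^ (i + 15) := by
    intro x hx
    rw [e0]
    linarith [s3 x hx]
  have s2' : ∀ x, t / 2 ≤ x → |G k (x + Real.log 2) - G k x| ≤ C1 / (N : ℝ) ^ (i + 15) := by
    intro x hx
    have h1 := hG.harm k (i + 2) (x + Real.log 2) (by linarith)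
    have e1 : x + Real.log 2 - Real.log 2 = x := by ring
    have e2 : x + Real.log 2 + Real.log (3 / 2) = x + Real.log 3 := by rw [hbe]; ring
    rw [e1, e2] at h1
    have h2 := s3 x hx
    have h3 : K k (i + 2) / (x + Real.log 2) ^ (i + 2) ≤ KB / (N : ℝ) ^ (i + 15) := by
      refine le_trans ?_ (herr (x + Real.log 2) (by linarith))
      exact div_le_div_of_nonneg_right (le_abs_self _) (by
        have : 0 < x + Real.log 2 := by linarith
        positivity)
    have h4 : 0 ≤ (2 * C0 + KB * 4 ^ (i + 2)) / (N : ℝ) ^ (i + 15) := by positivity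
    rw [e0]
    rw [abs_le] at h1 h2 ⊢
    constructor
    · linarith [h1.1, h1.2, h2.1, h2.2]
    · linarith [h1.1, h1.2, h2.1, h2.2]
  -- the small shift
  obtain ⟨u0, v0, huv0, hs0, hb0⟩ := small N hN
  obtain ⟨u, v, huv, hs, hpos, hb⟩ : ∃ u v : ℤ, (u ≠ 0 ∨ v ≠ 0) ∧
      ((|u| + |v| : ℤ) : ℝ) ≤ 4 * N ∧ 0 ≤ (u : ℝ) * Real.log 2 + v * Real.log 3 ∧
      (u : ℝ) * Real.log 2 + v * Real.log 3 ≤ 1 / N := by
    rcases le_total 0 ((u0 : ℝ) * Real.log 2 + v0 * Real.log 3) with h | h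
    · exact ⟨u0, v0, huv0, hs0, h, (le_abs_self _).trans hb0⟩
    · refine ⟨-u0, -v0, by omega, by rw [abs_neg, abs_neg]; exact hs0, ?_, ?_⟩
      · push_cast; linarith
      · have := neg_abs_le ((u0 : ℝ) * Real.log 2 + v0 * Real.log 3)
        push_cast
        linarith
  have hm := hmeas u v huv
  set θ : ℝ := (u : ℝ) * Real.log 2 + v * Real.log 3 with hθ
  rw [abs_of_nonneg hpos] at hm
  have hsn : (0 : ℝ) ≤ ((|u| + |v| : ℤ) : ℝ) := by
    have : 0 ≤ |u| + |v| := by positivity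
    exact_mod_cast this
  have hm2 : c0 ≤ (4 * (N : ℝ)) ^ 13 * θ := by
    refine hm.trans ?_
    apply mul_le_mul_of_nonneg_right _ hpos
    exact pow_le_pow_left₀ hsn hs 13
  have hθ0 : 0 < θ := by
    rcases hpos.lt_or_eq with h | h
    · exact h
    · rw [← h] at hm2; linarith
  have hlat := lattice (F := G k) (m := t / 2) s2' s3' u v t (by
    have : 16 * (N : ℝ) ≤ t := by linarith
    linarith)
  rw [← hθ] at hlat
  have hlat2 : |G k (t + θ) - G k t| ≤ 4 * N * (C1 / (N : ℝ) ^ (i + 15)) := by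
    refine hlat.trans ?_
    exact mul_le_mul_of_nonneg_right hs (by positivity)
  -- mean value theorem
  obtain ⟨ξ, hξ, hξe⟩ := exists_hasDerivAt_eq_slope (G k) (G (k + 1)) (by linarith : t < t + θ)
    (fun x _ => (hG.der k x).continuousAt.continuousWithinAt) (fun x _ => hG.der k x)
  have hθ1 : θ ≤ 1 := hb.trans (by rw [div_le_one hNp]; exact hN1)
  have h5 : |G (k + 1) ξ| ≤ 4 ^ 14 * C1 / c0 / (N : ℝ) ^ (i + 1) := by
    have e1 : t + θ - t = θ := by ring
    rw [hξe, e1, abs_div, abs_of_pos hθ0, div_le_iff₀ hθ0]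
    refine hlat2.trans ?_
    have h6 : c0 / ((4 * (N : ℝ)) ^ 13) ≤ θ := by
      rw [div_le_iff₀ (by positivity)]; linarith
    calc 4 * (N : ℝ) * (C1 / (N : ℝ) ^ (i + 15))
        = 4 ^ 14 * C1 / c0 / (N : ℝ) ^ (i + 1) * (c0 / ((4 * (N : ℝ)) ^ 13)) := by
          rw [mul_pow]
          have e3 : (N : ℝ) ^ (i + 15) = (N : ℝ) ^ (i + 1) * (N : ℝ) ^ 14 := by ring
          rw [e3]
          field_simp
      _ ≤ _ := mul_le_mul_of_nonneg_left h6 (by positivity)
  have h6 : |G (k + 1) ξ - G (k + 1) t| ≤ C2 / (N : ℝ) ^ (i + 1) := by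
    obtain ⟨η, hη, hηe⟩ := exists_hasDerivAt_eq_slope (G (k + 1)) (G (k + 1 + 1)) hξ.1
      (fun x _ => (hG.der (k + 1) x).continuousAt.continuousWithinAt) (fun x _ => hG.der (k + 1) x)
    have hd : 0 < ξ - t := by linarith [hξ.1]
    have e1 : G (k + 1) ξ - G (k + 1) t = G (k + 2) η * (ξ - t) := by
      have : G (k + 1 + 1) η = G (k + 2) η := rfl
      rw [this] at hηe
      rw [hηe]
      field_simp
    rw [e1, abs_mul, abs_of_pos hd]
    have h7 := b2 η (by linarith [hη.1])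
    have h8 : ξ - t ≤ 1 / N := by linarith [hξ.2]
    calc |G (k + 2) η| * (ξ - t) ≤ C2 / (N : ℝ) ^ i * (1 / N) :=
          mul_le_mul h7 h8 hd.le (by positivity)
      _ = C2 / (N : ℝ) ^ (i + 1) := by rw [pow_succ]; field_simp
  have h7 : G (k + 1) t = G (k + 1) ξ - (G (k + 1) ξ - G (k + 1) t) := by ring
  rw [h7, add_div]
  refine (abs_sub _ _).trans ?_
  linarith

theorem dec_all (i : ℕ) : ∀ k : ℕ, i ≤ k → Dec M K k i := by
  induction i with
  | zero => intro k _; exact dec_zero k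
  | succ i ih =>
    intro k hk
    obtain ⟨k', rfl⟩ : ∃ k', k = k' + 1 := ⟨k - 1, by omega⟩
    exact dec_step (ih k' (by omega)) (ih (k' + 2) (by omega))

theorem dec_down {j I : ℕ} (h2 : Dec M K (j + 2) I) : Dec M K (j + 1) I := by
  obtain ⟨A2, C2, hA2, hC2, hd2⟩ := h2
  have ha := a_bd
  have hc := c_bd
  have hbe := b_eq
  set KB : ℝ := |K j I| with hKB
  have hKB0 : 0 ≤ KB := abs_nonneg _
  refine ⟨2 * A2 + 4, 8 * (KB + C2), by linarith, by positivity, ?_⟩
  intro G hG N hN t ht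
  have hN1 : (1 : ℝ) ≤ N := by exact_mod_cast hN
  have hNp : (0 : ℝ) < N := by linarith
  have hN30 : (1 : ℝ) ≤ (N : ℝ) ^ 30 := one_le_pow₀ hN1
  have hNN30 : (N : ℝ) ≤ (N : ℝ) ^ 30 := le_self_pow₀ hN1 (by norm_num)
  have ht4 : 4 * (N : ℝ) ^ 30 ≤ t := by nlinarith
  have b2 : ∀ x, t - 1 ≤ x → |G (j + 2) x| ≤ C2 / (N : ℝ) ^ I :=
    fun x hx => hd2 G hG N hN x (by nlinarith)
  have hP : (0 : ℝ) < (N : ℝ) ^ I := by positivity
  have dif : ∀ x, |x - t| ≤ 1 → |G (j + 1) x - G (j + 1) t| ≤ C2 / (N : ℝ) ^ I := by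
    intro x hx
    rcases lt_trichotomy x t with h | h | h
    · obtain ⟨η, hη, hηe⟩ := exists_hasDerivAt_eq_slope (G (j + 1)) (G (j + 1 + 1)) h
        (fun x _ => (hG.der (j + 1) x).continuousAt.continuousWithinAt) (fun x _ => hG.der (j + 1) x)
      have hd : 0 < t - x := by linarith
      have e1 : G (j + 1) x - G (j + 1) t = -(G (j + 2) η * (t - x)) := by
        have : G (j + 1 + 1) η = G (j + 2) η := rfl
        rw [this] at hηe
        rw [hηe]
        field_simp
        ring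
      rw [e1, abs_neg, abs_mul, abs_of_pos hd]
      rw [abs_le] at hx
      have h7 := b2 η (by linarith [hη.1, hx.1])
      calc |G (j + 2) η| * (t - x) ≤ C2 / (N : ℝ) ^ I * 1 :=
            mul_le_mul h7 (by linarith [hx.1]) hd.le (by positivity)
        _ = _ := mul_one _
    · rw [h, sub_self, abs_zero]; positivity
    · obtain ⟨η, hη, hηe⟩ := exists_hasDerivAt_eq_slope (G (j + 1)) (G (j + 1 + 1)) h
        (fun x _ => (hG.der (j + 1) x).continuousAt.continuousWithinAt) (fun x _ => hG.der (j + 1) x)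
      have hd : 0 < x - t := by linarith
      have e1 : G (j + 1) x - G (j + 1) t = G (j + 2) η * (x - t) := by
        have : G (j + 1 + 1) η = G (j + 2) η := rfl
        rw [this] at hηe
        rw [hηe]
        field_simp
      rw [e1, abs_mul, abs_of_pos hd]
      rw [abs_le] at hx
      have h7 := b2 η (by linarith [hη.1, hx.2])
      calc |G (j + 2) η| * (x - t) ≤ C2 / (N : ℝ) ^ I * 1 :=
            mul_le_mul h7 (by linarith [hx.2]) hd.le (by positivity)
        _ = _ := mul_one _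
  -- the two steps
  obtain ⟨ξ1, hξ1, hξe1⟩ := exists_hasDerivAt_eq_slope (G j) (G (j + 1))
    (by linarith : t - Real.log 2 < t)
    (fun x _ => (hG.der j x).continuousAt.continuousWithinAt) (fun x _ => hG.der j x)
  have hb0 : 0 < Real.log (3 / 2) := Real.log_pos (by norm_num)
  obtain ⟨ξ2, hξ2, hξe2⟩ := exists_hasDerivAt_eq_slope (G j) (G (j + 1))
    (by linarith : t < t + Real.log (3 / 2))
    (fun x _ => (hG.der j x).continuousAt.continuousWithinAt) (fun x _ => hG.der j x)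
  have hb1 : Real.log (3 / 2) ≤ 0.41 := by rw [hbe]; linarith
  have f1 := dif ξ1 (by rw [abs_le]; constructor <;> linarith [hξ1.1, hξ1.2])
  have f2 := dif ξ2 (by rw [abs_le]; constructor <;> linarith [hξ2.1, hξ2.2])
  have e1 : G j (t - Real.log 2) = G j t - Real.log 2 * G (j + 1) ξ1 := by
    rw [hξe1]
    have : t - (t - Real.log 2) ≠ 0 := by linarith
    field_simp
    ring
  have e2 : G j (t + Real.log (3 / 2)) = G j t + Real.log (3 / 2) * G (j + 1) ξ2 := by
    rw [hξe2]
    have : t + Real.log (3 / 2) - t ≠ 0 := by linarith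
    field_simp
    ring
  have h1 := hG.harm j I t (by linarith)
  rw [e1, e2] at h1
  have h2 : K j I / t ^ I ≤ KB / (N : ℝ) ^ I := by
    calc K j I / t ^ I ≤ KB / t ^ I :=
          div_le_div_of_nonneg_right (le_abs_self _) (by
            have : 0 < t := by linarith
            positivity)
      _ ≤ KB / (N : ℝ) ^ I := by
          apply div_le_div_of_nonneg_left hKB0 hP
          exact pow_le_pow_left₀ hNp.le (by linarith) _
  set X := G (j + 1) t with hX
  set D := C2 / (N : ℝ) ^ I with hD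
  have hD0 : 0 < D := by positivity
  set P := G (j + 1) ξ1 with hP1
  set Q' := G (j + 1) ξ2 with hQ1
  set a := Real.log 2 with hadef
  set b := Real.log (3 / 2) with hbdef
  have hab : 0.27 ≤ a - b := by rw [hbe]; linarith
  have h3 : |(a - b) * X| ≤ 2 * (KB / (N : ℝ) ^ I) + (a + b) * D := by
    have e3 : (a - b) * X = 2 * (G j t - (G j t - a * P + (G j t + b * Q')) / 2)
        - a * (P - X) + b * (Q' - X) := by ring
    rw [e3]
    have g1 : |2 * (G j t - (G j t - a * P + (G j t + b * Q')) / 2)| ≤ 2 * (KB / (N : ℝ) ^ I) := by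
      rw [abs_mul, abs_of_pos (by norm_num : (0 : ℝ) < 2)]
      linarith
    have g2 : |a * (P - X)| ≤ a * D := by
      rw [abs_mul, abs_of_pos (by linarith : 0 < a)]
      exact mul_le_mul_of_nonneg_left f1 (by linarith)
    have g3 : |b * (Q' - X)| ≤ b * D := by
      rw [abs_mul, abs_of_pos hb0]
      exact mul_le_mul_of_nonneg_left f2 hb0.le
    have g4 := abs_add_le (2 * (G j t - (G j t - a * P + (G j t + b * Q')) / 2) - a * (P - X))
      (b * (Q' - X))
    have g5 := abs_sub (2 * (G j t - (G j t - a * P + (G j t + b * Q')) / 2)) (a * (P - X))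
    linarith
  rw [abs_mul, abs_of_pos (by linarith : 0 < a - b)] at h3
  have h4 : 8 * (KB + C2) / (N : ℝ) ^ I = 8 * (KB / (N : ℝ) ^ I) + 8 * D := by rw [hD]; ring
  rw [h4]
  have h5 : 0 ≤ KB / (N : ℝ) ^ I := by positivity
  have h6 : 0 ≤ |X| := abs_nonneg _
  have h7 : (a + b) * D ≤ 1.2 * D := mul_le_mul_of_nonneg_right (by linarith) hD0.le
  nlinarith

theorem dec_one (I : ℕ) (hI : 1 ≤ I) : Dec M K 1 I := by
  have h : ∀ n p : ℕ, p + 1 + n = I → Dec M K (p + 1) I := by
    intro n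
    induction n with
    | zero => intro p hp; exact dec_all I (p + 1) (by omega)
    | succ n ih =>
      intro p hp
      exact dec_down (ih (p + 1) (by omega))
  exact h (I - 1) 0 (by omega)

open Filter Topology in
theorem conv (B : ℕ) : ∃ C : ℝ, 0 < C ∧ ∀ G : ℕ → ℝ → ℝ, Tower M K G → ∀ l : ℝ,
    Tendsto (G 0) atTop (𝓝 l) → ∀ t : ℝ, 1 ≤ t → |G 0 t - l| ≤ C / t ^ B := by
  obtain ⟨A, C0, hA, hC0, hd⟩ := dec_one (M := M) (K := K) (30 * (B + 2)) (by omega)
  set C1 : ℝ := C0 * 2 ^ (30 * (B + 2)) * A ^ (B + 2) with hC1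
  have hA0 : 0 < A := by linarith
  have hC1p : 0 < C1 := by positivity
  have key : ∀ G : ℕ → ℝ → ℝ, Tower M K G → ∀ t : ℝ, A ≤ t → |G 1 t| ≤ C1 / t ^ (B + 2) := by
    intro G hG t ht
    have ht0 : 0 < t := by linarith
    set r : ℝ := (t / A) ^ (1 / 30 : ℝ) with hr
    have hr1 : 1 ≤ r := Real.one_le_rpow (by rw [one_le_div hA0]; exact ht) (by norm_num)
    have hr30 : r ^ 30 = t / A := by
      rw [hr, ← Real.rpow_natCast, ← Real.rpow_mul (by positivity)]
      norm_num
    set N := ⌊r⌋₊ with hN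
    have hN1 : (N : ℝ) ≤ r := Nat.floor_le (by linarith)
    have hN2 : r < N + 1 := Nat.lt_floor_add_one _
    have hN3 : 1 ≤ N := by
      rw [hN, Nat.one_le_floor_iff]; exact hr1
    have hN4 : (1 : ℝ) ≤ N := by exact_mod_cast hN3
    have hN0 : (0 : ℝ) ≤ N := by linarith
    have h1 := hd G hG N hN3 t (by
      calc A * (N : ℝ) ^ 30 ≤ A * r ^ 30 :=
            mul_le_mul_of_nonneg_left (pow_le_pow_left₀ hN0 hN1 30) hA0.le
        _ = t := by rw [hr30]; field_simp)
    refine h1.trans ?_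
    rw [div_le_div_iff₀ (by positivity) (by positivity)]
    have h2 : t ^ (B + 2) = A ^ (B + 2) * r ^ (30 * (B + 2)) := by
      rw [pow_mul, hr30, div_pow]; field_simp
    have h3 : r ^ (30 * (B + 2)) ≤ 2 ^ (30 * (B + 2)) * (N : ℝ) ^ (30 * (B + 2)) := by
      rw [← mul_pow]
      exact pow_le_pow_left₀ (by linarith) (by linarith) _
    rw [h2, hC1]
    calc C0 * (A ^ (B + 2) * r ^ (30 * (B + 2)))
        ≤ C0 * (A ^ (B + 2) * (2 ^ (30 * (B + 2)) * (N : ℝ) ^ (30 * (B + 2)))) := by gcongr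
      _ = _ := by ring
  refine ⟨C1 + 2 * |M 0| * A ^ B, by positivity, ?_⟩
  intro G hG l hl t ht
  have ht0 : 0 < t := by linarith
  rcases le_or_gt A t with hAt | hAt
  · have hD : ∀ u : ℝ, t ≤ u → |G 0 u - G 0 t| ≤ C1 / t ^ B := by
      intro u hu
      set D : ℝ := C1 / t ^ B with hDdef
      have hD0 : 0 < D := by positivity
      have hder : ∀ x, t ≤ x → |G 1 x| ≤ D / x ^ 2 := by
        intro x hx
        refine (key G hG x (hAt.trans hx)).trans ?_
        have hx0 : 0 < x := by linarith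
        rw [hDdef, div_div]
        apply div_le_div_of_nonneg_left hC1p.le (by positivity)
        rw [pow_add]
        apply mul_le_mul_of_nonneg_right (pow_le_pow_left₀ ht0.le hx B) (by positivity)
      have hinv : ∀ x, t ≤ x → HasDerivAt (fun y : ℝ => D / y) (-(D / x ^ 2)) x := by
        intro x hx
        have hx0 : x ≠ 0 := by
          have : 0 < x := by linarith
          exact this.ne'
        have h1 := (hasDerivAt_inv hx0).const_mul D
        have e : (fun y : ℝ => D / y) = fun y => D * y⁻¹ := by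
          funext y; rw [div_eq_mul_inv]
        have e2 : -(D / x ^ 2) = D * -(x ^ 2)⁻¹ := by rw [div_eq_mul_inv]; ring
        rw [e, e2]
        exact h1
      have hm : MonotoneOn (fun x => G 0 x - D / x) (Set.Ici t) := by
        apply monotoneOn_of_deriv_nonneg (convex_Ici t)
        · intro x hx
          exact ((hG.der 0 x).sub (hinv x hx)).continuousAt.continuousWithinAt
        · intro x hx
          rw [interior_Ici] at hx
          exact ((hG.der 0 x).sub (hinv x (le_of_lt hx))).differentiableAt.differentiableWithinAt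
        · intro x hx
          rw [interior_Ici] at hx
          have hd' : HasDerivAt (fun x => G 0 x - D / x) (G (0 + 1) x - -(D / x ^ 2)) x :=
            (hG.der 0 x).sub (hinv x (le_of_lt hx))
          rw [hd'.deriv]
          have := (abs_le.1 (hder x (le_of_lt hx))).1
          show 0 ≤ G (0 + 1) x - -(D / x ^ 2)
          rw [zero_add]
          linarith
      have ha : AntitoneOn (fun x => G 0 x + D / x) (Set.Ici t) := by
        apply antitoneOn_of_deriv_nonpos (convex_Ici t)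
        · intro x hx
          exact ((hG.der 0 x).add (hinv x hx)).continuousAt.continuousWithinAt
        · intro x hx
          rw [interior_Ici] at hx
          exact ((hG.der 0 x).add (hinv x (le_of_lt hx))).differentiableAt.differentiableWithinAt
        · intro x hx
          rw [interior_Ici] at hx
          have hd' : HasDerivAt (fun x => G 0 x + D / x) (G (0 + 1) x + -(D / x ^ 2)) x :=
            (hG.der 0 x).add (hinv x (le_of_lt hx))
          rw [hd'.deriv]
          have := (abs_le.1 (hder x (le_of_lt hx))).2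
          show G (0 + 1) x + -(D / x ^ 2) ≤ 0
          rw [zero_add]
          linarith
      have h1 : G 0 t - D / t ≤ G 0 u - D / u := hm (Set.mem_Ici.2 le_rfl) (Set.mem_Ici.2 hu) hu
      have h2 : G 0 u + D / u ≤ G 0 t + D / t := ha (Set.mem_Ici.2 le_rfl) (Set.mem_Ici.2 hu) hu
      have hu0 : 0 < u := by linarith
      have h3 : 0 ≤ D / u := by positivity
      have h4 : D / t ≤ D := div_le_self hD0.le ht
      rw [abs_le]
      constructor <;> linarith
    have h1 : |l - G 0 t| ≤ C1 / t ^ B := by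
      have h2 : Tendsto (fun u => |G 0 u - G 0 t|) atTop (𝓝 |l - G 0 t|) :=
        (hl.sub_const _).abs
      apply le_of_tendsto h2
      filter_upwards [eventually_ge_atTop t] with u hu
      exact hD u hu
    rw [abs_sub_comm]
    refine h1.trans ?_
    apply div_le_div_of_nonneg_right _ (by positivity)
    have : 0 ≤ 2 * |M 0| * A ^ B := by positivity
    linarith
  · have h1 : |G 0 t| ≤ |M 0| := (hG.bd 0 t ht0.le).trans (le_abs_self _)
    have h2 : |l| ≤ |M 0| := by
      apply le_of_tendsto hl.abs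
      filter_upwards [eventually_ge_atTop 0] with u hu
      exact (hG.bd 0 u hu).trans (le_abs_self _)
    have h3 : |G 0 t - l| ≤ 2 * |M 0| := (abs_sub _ _).trans (by linarith)
    refine h3.trans ?_
    rw [le_div_iff₀ (by positivity)]
    have h4 : t ^ B ≤ A ^ B := pow_le_pow_left₀ ht0.le hAt.le B
    have h5 : 2 * |M 0| * t ^ B ≤ 2 * |M 0| * A ^ B := mul_le_mul_of_nonneg_left h4 (by positivity)
    linarith

end Pool.Agent.P8H74.SM
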