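import Pool.Agent.H499R2.NDHarm

/-! Invariant sets are equidistributed in the classes mod `3^m`: all integers below a bound. -/

set_option autoImplicit false

namespace Pool.Agent.P8H74.SM

open Pool.Agent.H499R2.ND Pool.Agent.H320R2.PD Finset

/-- dyadic descent -/
theorem dyadic {ι : Type*} (D : ι → ℝ → ℝ) (σ : ι → ι) {Y ε Z : ℝ} (hY : 0 < Y) (hε : 0 ≤ ε)
    (h0 : ∀ i X, 0 < X → X ≤ Y → D i X ≤ Y)
    (h1 : ∀ i X, Y < X → X ≤ Z → D i X ≤ D (σ i) (X / 2) + ε * X) :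
    ∀ i X, 0 < X → X ≤ Z → D i X ≤ 2 * ε * X + Y := by
  have main : ∀ n : ℕ, ∀ i X, 0 < X → X ≤ Z → X ≤ 2 ^ n * Y → D i X ≤ 2 * ε * X + Y := by
    intro n
    induction n with
    | zero =>
      intro i X hX hXZ hn
      have := h0 i X hX (by linarith)
      have h2 : 0 ≤ 2 * ε * X := by positivity
      linarith
    | succ n ih =>
      intro i X hX hXZ hn
      rcases le_or_gt X Y with h | h
      · have := h0 i X hX h
        have h2 : 0 ≤ 2 * ε * X := by positivity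
        linarith
      · have h3 := h1 i X h hXZ
        have h4 := ih (σ i) (X / 2) (by linarith) (by linarith) (by rw [pow_succ] at hn; linarith)
        linarith
  intro i X hX hXZ
  obtain ⟨n, hn⟩ := pow_unbounded_of_one_lt (X / Y) (by norm_num : (1 : ℝ) < 2)
  exact main n i X hX hXZ (by rw [div_lt_iff₀ hY] at hn; exact hn.le)

/-- absorbing the small powers -/
theorem absorb (B : ℕ) {t : ℝ} {m : ℕ} (ht : 0 ≤ t) (hm : (m : ℝ) ^ 2 ≤ t / 3) :
    (3 : ℝ) ^ m * t ^ B ≤ (Real.exp 1 * (B.factorial * 4 ^ B)) * Real.exp (t / 2) := by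
  have h3 : Real.log 3 ≤ 1.1 := by
    rw [Real.log_le_iff_le_exp (by norm_num)]
    have h := Real.exp_one_gt_d9
    have h1 : Real.exp 1.1 = Real.exp 1 * Real.exp 0.1 := by rw [← Real.exp_add]; norm_num
    have h2 : (1.105 : ℝ) ≤ Real.exp 0.1 := by
      have := Real.quadratic_le_exp_of_nonneg (x := 0.1) (by norm_num)
      linarith
    rw [h1]
    nlinarith
  have h1 : (3 : ℝ) ^ m ≤ Real.exp (t / 4 + 1) := by
    have e : (3 : ℝ) ^ m = Real.exp (m * Real.log 3) := by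
      rw [Real.exp_nat_mul, Real.exp_log (by norm_num)]
    rw [e]
    apply Real.exp_le_exp.2
    have hm0 : (0 : ℝ) ≤ m := Nat.cast_nonneg m
    nlinarith [sq_nonneg ((m : ℝ) * 0.75 - 0.55)]
  have h2 : t ^ B ≤ (B.factorial * 4 ^ B) * Real.exp (t / 4) := by
    have := Real.pow_div_factorial_le_exp (t / 4) (by positivity) B
    rw [div_le_iff₀ (by positivity), div_pow, div_le_iff₀ (by positivity)] at this
    linarith
  calc (3 : ℝ) ^ m * t ^ B ≤ Real.exp (t / 4 + 1) * ((B.factorial * 4 ^ B) * Real.exp (t / 4)) :=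
        mul_le_mul h1 h2 (by positivity) (by positivity)
    _ = (Real.exp 1 * (B.factorial * 4 ^ B)) * (Real.exp (t / 4) * Real.exp (t / 4)) := by
        rw [Real.exp_add]; ring
    _ = _ := by rw [← Real.exp_add]; ring_nf

theorem cls_split (S : Set ℤ) {a b c : ℝ} (hab : a ≤ b) (hbc : b ≤ c) (m : ℕ) (u v : ℤ) :
    (cls S a c m u v).card = (cls S a b m u v).card + (cls S b c m u v).card := by
  classical
  have hd : Disjoint (cls S a b m u v) (cls S b c m u v) := by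
    rw [Finset.disjoint_left]
    intro x hx hx'
    rw [mem_cls] at hx hx'
    linarith [hx.1.2, hx'.1.1]
  rw [← card_union_of_disjoint hd]
  congr 1
  ext x
  rw [mem_union, mem_cls, mem_cls, mem_cls]
  constructor
  · rintro ⟨h1, h2⟩
    rcases lt_or_ge (x : ℝ) b with h | h
    · exact Or.inl ⟨⟨h1.1, h⟩, h2⟩
    · exact Or.inr ⟨⟨h, h1.2⟩, h2⟩
  · rintro (⟨h1, h2⟩ | ⟨h1, h2⟩)
    · exact ⟨⟨h1.1, by linarith [h1.2]⟩, h2⟩
    · exact ⟨⟨by linarith [h1.1], h1.2⟩, h2⟩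

theorem cls_le_pos (S : Set ℤ) {X : ℝ} (hX : 0 ≤ X) (m : ℕ) (u v : ℤ) :
    ((cls S 1 X m u v).card : ℝ) ≤ X := by
  refine le_trans ?_ (pos_card_le S hX)
  have : cls S 1 X m u v ⊆ pos S X := by
    intro x hx
    rw [mem_cls] at hx
    rw [mem_pos]
    exact ⟨⟨by exact_mod_cast hx.1.1, hx.1.2⟩, hx.2.2.1⟩
  exact_mod_cast card_le_card this

theorem wc_le_pos (S : Set ℤ) {X : ℝ} (hX : 0 ≤ X) (q c : ℤ) :
    ((wc S 1 X q c).card : ℝ) ≤ X := by
  refine le_trans ?_ (pos_card_le S hX)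
  have : wc S 1 X q c ⊆ pos S X := by
    intro x hx
    rw [mem_wc] at hx
    rw [mem_pos]
    exact ⟨⟨by exact_mod_cast hx.1.1, hx.1.2⟩, hx.2.1⟩
  exact_mod_cast card_le_card this

/-- odd elements of an invariant set below `X` -/
theorem odd_equi (B : ℕ) {d : ℤ} (hd : Odd d) (hd3 : IsCoprime d 3) : ∃ C : ℝ, 0 < C ∧
    ∀ S : Set ℤ, Inv d S → ∀ X : ℝ, 0 < X → 3000 ≤ Real.log X → ∀ m : ℕ,
      (m : ℝ) ^ 2 ≤ Real.log X / 3 → ∀ c c' : ℤ,
      |((cls S 1 X m 1 c).card : ℝ) - (cls S 1 X m 1 c').card|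
        ≤ C / (Real.log X) ^ B * (X / 3 ^ m) := by
  obtain ⟨C, hC, he⟩ := equi_odd B hd hd3
  refine ⟨C * 3 ^ B + Real.exp 1 * (B.factorial * 4 ^ B), by positivity, ?_⟩
  intro S hS Z hZ0 hZ m hm c c'
  have hl2' := Real.log_two_lt_d9
  set t := Real.log Z with ht
  have htp : 0 < t := by linarith
  have hY : 0 < √Z := Real.sqrt_pos.2 hZ0
  have hYexp : √Z = Real.exp (t / 2) := by
    rw [ht, Real.sqrt_eq_rpow, Real.rpow_def_of_pos hZ0]; ring_nf
  have hYsq : √Z * √Z = Z := Real.mul_self_sqrt hZ0.le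
  have hY4 : 4 ≤ √Z := by
    rw [hYexp]
    linarith [Real.add_one_le_exp (t / 2)]
  set ε : ℝ := C * 3 ^ B / t ^ B / (4 * 3 ^ m) with hε
  have hε0 : 0 ≤ ε := by positivity
  have key := dyadic (ι := ℤ × ℤ)
    (fun i X => |((cls S 1 X m 1 i.1).card : ℝ) - (cls S 1 X m 1 i.2).card|) id
    (Y := √Z) (ε := ε) (Z := Z) hY hε0 (by
      intro i X hX hXY
      have h1 := cls_le_pos S hX.le m 1 i.1
      have h2 := cls_le_pos S hX.le m 1 i.2
      have h3 : (0 : ℝ) ≤ (cls S 1 X m 1 i.1).card := Nat.cast_nonneg _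
      have h4 : (0 : ℝ) ≤ (cls S 1 X m 1 i.2).card := Nat.cast_nonneg _
      show |((cls S 1 X m 1 i.1).card : ℝ) - (cls S 1 X m 1 i.2).card| ≤ √Z
      rw [abs_le]
      constructor <;> linarith) (by
      intro i X hYX hXZ
      have hX0 : 0 < X := by linarith
      have hlogX : t / 2 ≤ Real.log X := by
        rw [Real.le_log_iff_exp_le hX0, ← hYexp]; exact hYX.le
      have hlogA : Real.log (X / 2) = Real.log X - Real.log 2 := Real.log_div hX0.ne' (by norm_num)
      have hA3 : t / 3 ≤ Real.log (X / 2) := by rw [hlogA]; linarith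
      have hA0 : 0 < Real.log (X / 2) := by linarith
      have g := he S hS.fwd hS.compl.fwd (X / 2) (by linarith) (by linarith) m (by linarith)
      have g1 := g i.1 i.2
      have g2 := g i.2 i.1
      have e : 2 * (X / 2) = X := by ring
      rw [e] at g1 g2
      have s1 := cls_split S (a := 1) (b := X / 2) (c := X) (by linarith) (by linarith) m 1 i.1
      have s2 := cls_split S (a := 1) (b := X / 2) (c := X) (by linarith) (by linarith) m 1 i.2
      have s1' : ((cls S 1 X m 1 i.1).card : ℝ) = (cls S 1 (X / 2) m 1 i.1).card +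
          (cls S (X / 2) X m 1 i.1).card := by exact_mod_cast s1
      have s2' : ((cls S 1 X m 1 i.2).card : ℝ) = (cls S 1 (X / 2) m 1 i.2).card +
          (cls S (X / 2) X m 1 i.2).card := by exact_mod_cast s2
      have hb : C / Real.log (X / 2) ^ B * (X / 2 / (2 * 3 ^ m)) ≤ ε * X := by
        have h1 : C / Real.log (X / 2) ^ B ≤ C * 3 ^ B / t ^ B := by
          calc C / Real.log (X / 2) ^ B ≤ C / (t / 3) ^ B :=
                div_le_div_of_nonneg_left hC.le (by positivity)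
                  (pow_le_pow_left₀ (by positivity) hA3 B)
            _ = C * 3 ^ B / t ^ B := by rw [div_pow, div_div_eq_mul_div]
        calc C / Real.log (X / 2) ^ B * (X / 2 / (2 * 3 ^ m))
            ≤ C * 3 ^ B / t ^ B * (X / 2 / (2 * 3 ^ m)) :=
              mul_le_mul_of_nonneg_right h1 (by positivity)
          _ = ε * X := by rw [hε]; field_simp; ring
      show |((cls S 1 X m 1 i.1).card : ℝ) - (cls S 1 X m 1 i.2).card| ≤
        |((cls S 1 (X / 2) m 1 i.1).card : ℝ) - (cls S 1 (X / 2) m 1 i.2).card| + ε * X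
      have h5 := neg_abs_le (((cls S 1 (X / 2) m 1 i.1).card : ℝ) - (cls S 1 (X / 2) m 1 i.2).card)
      have h6 := le_abs_self (((cls S 1 (X / 2) m 1 i.1).card : ℝ) - (cls S 1 (X / 2) m 1 i.2).card)
      rw [s1', s2', abs_le]
      constructor <;> linarith)
  have h := key (c, c') Z hZ0 le_rfl
  refine le_trans h ?_
  have hab := absorb B htp.le hm
  rw [← hYexp] at hab
  have h1 : √Z ≤ (Real.exp 1 * (B.factorial * 4 ^ B)) / t ^ B * (Z / 3 ^ m) := by
    rw [div_mul_div_comm, le_div_iff₀ (by positivity)]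
    calc √Z * (t ^ B * 3 ^ m) = √Z * (3 ^ m * t ^ B) := by ring
      _ ≤ √Z * ((Real.exp 1 * (B.factorial * 4 ^ B)) * √Z) := mul_le_mul_of_nonneg_left hab hY.le
      _ = (Real.exp 1 * (B.factorial * 4 ^ B)) * (√Z * √Z) := by ring
      _ = _ := by rw [hYsq]
  have h2 : 2 * ε * Z ≤ C * 3 ^ B / t ^ B * (Z / 3 ^ m) := by
    have e : 2 * ε * Z = C * 3 ^ B / t ^ B * (Z / 3 ^ m) / 2 := by
      rw [hε]; field_simp; ring
    have h3 : 0 ≤ C * 3 ^ B / t ^ B * (Z / 3 ^ m) := by positivity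
    linarith
  calc 2 * ε * Z + √Z ≤ C * 3 ^ B / t ^ B * (Z / 3 ^ m) +
        (Real.exp 1 * (B.factorial * 4 ^ B)) / t ^ B * (Z / 3 ^ m) := add_le_add h2 h1
    _ = _ := by ring

/-- parity decomposition below `X`, classes mod `3^m` -/
theorem wc_parity_below {d : ℤ} {S : Set ℤ} (h : Inv d S) {X : ℝ} (hX : 2 ≤ X) (m : ℕ) (c : ℤ) :
    (wc S 1 X (3 ^ m) c).card = (cls S 1 X m 1 c).card +
      (wc S 1 (X / 2) (3 ^ m) ((3 ^ m + 1) / 2 * c)).card := by
  classical
  have h3 : Odd ((3 : ℤ) ^ m) := Odd.pow (by decide)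
  obtain ⟨r, hr⟩ := h3
  have hh : 2 * (((3 : ℤ) ^ m + 1) / 2) = 3 ^ m + 1 := by omega
  set g : ℤ := ((3 : ℤ) ^ m + 1) / 2 with hg
  have hdvd : ∀ y : ℤ, (3 : ℤ) ^ m ∣ 2 * y - c ↔ (3 : ℤ) ^ m ∣ y - g * c := by
    intro y
    have hcop : IsCoprime ((3 : ℤ) ^ m) 2 := by
      apply IsCoprime.pow_left
      exact ⟨1, -1, by norm_num⟩
    have e : 2 * (y - g * c) = (2 * y - c) - 3 ^ m * c := by
      have : 2 * (y - g * c) = 2 * y - (2 * g) * c := by ring
      rw [this, hh]; ring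
    constructor
    · intro h1
      apply hcop.dvd_of_dvd_mul_left
      rw [e]
      exact dvd_sub h1 (dvd_mul_right _ _)
    · intro h1
      have h2 : (3 : ℤ) ^ m ∣ 2 * (y - g * c) := h1.mul_left 2
      rw [e] at h2
      have := dvd_add h2 (dvd_mul_right ((3 : ℤ) ^ m) c)
      rwa [sub_add_cancel] at this
  have hev : (wc S 1 (X / 2) (3 ^ m) (g * c)).card
      = ((wc S 1 (X / 2) (3 ^ m) (g * c)).image fun x => 2 * x).card := by
    rw [card_image_of_injective]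
    intro x y hxy
    simp only at hxy
    omega
  rw [hev, ← card_union_of_disjoint]
  · congr 1
    ext x
    rw [mem_wc, mem_union, mem_cls, mem_image]
    constructor
    · rintro ⟨h1, h2, h3⟩
      rcases Int.even_or_odd x with he | ho
      · right
        obtain ⟨y, hy⟩ := he
        refine ⟨y, ?_, by omega⟩
        rw [mem_wc]
        have hxy : (x : ℝ) = 2 * y := by rw [hy]; push_cast; ring
        have hy1 : 1 ≤ y := by
          have : (1 : ℤ) ≤ x := by exact_mod_cast h1.1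
          omega
        refine ⟨⟨by exact_mod_cast hy1, by linarith [h1.2]⟩, ?_, ?_⟩
        · rw [← h.two, show 2 * y = x by omega]; exact h2
        · rw [← hdvd, show 2 * y = x by omega]; exact h3
      · left
        exact ⟨h1, ho, h2, by rw [one_mul]; exact h3⟩
    · rintro (⟨h1, h2, h3, h4⟩ | ⟨y, hy, rfl⟩)
      · rw [one_mul] at h4; exact ⟨h1, h3, h4⟩
      · rw [mem_wc] at hy
        obtain ⟨h1, h2, h3⟩ := hy
        push_cast
        exact ⟨⟨by linarith [h1.1], by linarith [h1.2]⟩, (h.two y).2 h2, (hdvd y).2 h3⟩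
  · rw [Finset.disjoint_left]
    intro x hx hx'
    rw [mem_cls] at hx
    rw [mem_image] at hx'
    obtain ⟨y, _, rfl⟩ := hx'
    have := hx.2.1
    rw [Int.odd_iff] at this
    omega

/-- all elements of an invariant set below `X` -/
theorem all_equi (B : ℕ) {d : ℤ} (hd : Odd d) (hd3 : IsCoprime d 3) : ∃ C : ℝ, 0 < C ∧
    ∀ S : Set ℤ, Inv d S → ∀ Z : ℝ, 1 < Z → ∀ m : ℕ,
      (m : ℝ) ^ 2 ≤ Real.log Z / 6 → ∀ c c' : ℤ, ∀ X : ℝ, 0 < X → X ≤ Z →
      |((wc S 1 X (3 ^ m) c).card : ℝ) - (wc S 1 X (3 ^ m) c').card|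
        ≤ C / (Real.log Z) ^ B * (Z / 3 ^ m) := by
  obtain ⟨C, hC, he⟩ := odd_equi B hd hd3
  refine ⟨2 * C * 2 ^ B + Real.exp 1 * (B.factorial * 4 ^ B) + 3 ^ 32 * 6000 ^ B, by positivity, ?_⟩
  intro S hS Z hZ1 m hm c c' X hX0 hXZ
  have hZ0 : 0 < Z := by linarith
  set t := Real.log Z with ht
  have htp : 0 < t := Real.log_pos hZ1
  have htriv : ∀ i : ℤ × ℤ, ∀ X : ℝ, 0 < X →
      |((wc S 1 X (3 ^ m) i.1).card : ℝ) - (wc S 1 X (3 ^ m) i.2).card| ≤ X := by
    intro i X hX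
    have h1 := wc_le_pos S hX.le (3 ^ m) i.1
    have h2 := wc_le_pos S hX.le (3 ^ m) i.2
    have h3 : (0 : ℝ) ≤ (wc S 1 X (3 ^ m) i.1).card := Nat.cast_nonneg _
    have h4 : (0 : ℝ) ≤ (wc S 1 X (3 ^ m) i.2).card := Nat.cast_nonneg _
    rw [abs_le]
    constructor <;> linarith
  rcases lt_or_ge t 6000 with hsm | hbig
  · refine (htriv (c, c') X hX0).trans (hXZ.trans ?_)
    have hm32 : m ≤ 32 := by
      by_contra hcon
      push Not at hcon
      have h1 : (33 : ℝ) ≤ m := by exact_mod_cast hcon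
      nlinarith
    have h1 : (3 : ℝ) ^ m ≤ 3 ^ 32 := pow_le_pow_right₀ (by norm_num) hm32
    have h2 : t ^ B ≤ 6000 ^ B := pow_le_pow_left₀ htp.le hsm.le B
    rw [div_mul_div_comm, le_div_iff₀ (by positivity)]
    have h3 : t ^ B * 3 ^ m ≤ 6000 ^ B * 3 ^ 32 :=
      mul_le_mul h2 h1 (by positivity) (by positivity)
    have h4 : 0 ≤ 2 * C * 2 ^ B + Real.exp 1 * (B.factorial * 4 ^ B) := by positivity
    have h5 : Z * (t ^ B * 3 ^ m) ≤ Z * (6000 ^ B * 3 ^ 32) := mul_le_mul_of_nonneg_left h3 hZ0.le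
    nlinarith
  have hl2' := Real.log_two_lt_d9
  have hY : 0 < √Z := Real.sqrt_pos.2 hZ0
  have hYexp : √Z = Real.exp (t / 2) := by
    rw [ht, Real.sqrt_eq_rpow, Real.rpow_def_of_pos hZ0]; ring_nf
  have hYsq : √Z * √Z = Z := Real.mul_self_sqrt hZ0.le
  have hY4 : 4 ≤ √Z := by
    rw [hYexp]
    linarith [Real.add_one_le_exp (t / 2)]
  set ε : ℝ := C * 2 ^ B / t ^ B / 3 ^ m with hε
  have hε0 : 0 ≤ ε := by positivity
  have key := dyadic (ι := ℤ × ℤ)
    (fun i X => |((wc S 1 X (3 ^ m) i.1).card : ℝ) - (wc S 1 X (3 ^ m) i.2).card|)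
    (fun i => ((3 ^ m + 1) / 2 * i.1, (3 ^ m + 1) / 2 * i.2))
    (Y := √Z) (ε := ε) (Z := Z) hY hε0 (by
      intro i X hX hXY
      exact (htriv i X hX).trans hXY) (by
      intro i X hYX hXZ
      have hX0 : 0 < X := by linarith
      have hlogX : t / 2 ≤ Real.log X := by
        rw [Real.le_log_iff_exp_le hX0, ← hYexp]; exact hYX.le
      have hl0 : 0 < Real.log X := by linarith
      have g := he S hS X hX0 (by linarith) m (by linarith) i.1 i.2
      have s1 := wc_parity_below hS (by linarith : 2 ≤ X) m i.1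
      have s2 := wc_parity_below hS (by linarith : 2 ≤ X) m i.2
      have s1' : ((wc S 1 X (3 ^ m) i.1).card : ℝ) = (cls S 1 X m 1 i.1).card +
          (wc S 1 (X / 2) (3 ^ m) ((3 ^ m + 1) / 2 * i.1)).card := by exact_mod_cast s1
      have s2' : ((wc S 1 X (3 ^ m) i.2).card : ℝ) = (cls S 1 X m 1 i.2).card +
          (wc S 1 (X / 2) (3 ^ m) ((3 ^ m + 1) / 2 * i.2)).card := by exact_mod_cast s2
      have hb : C / Real.log X ^ B * (X / 3 ^ m) ≤ ε * X := by
        have h1 : C / Real.log X ^ B ≤ C * 2 ^ B / t ^ B := by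
          calc C / Real.log X ^ B ≤ C / (t / 2) ^ B :=
                div_le_div_of_nonneg_left hC.le (by positivity)
                  (pow_le_pow_left₀ (by positivity) hlogX B)
            _ = C * 2 ^ B / t ^ B := by rw [div_pow, div_div_eq_mul_div]
        calc C / Real.log X ^ B * (X / 3 ^ m)
            ≤ C * 2 ^ B / t ^ B * (X / 3 ^ m) :=
              mul_le_mul_of_nonneg_right h1 (by positivity)
          _ = ε * X := by rw [hε]; field_simp
      show |((wc S 1 X (3 ^ m) i.1).card : ℝ) - (wc S 1 X (3 ^ m) i.2).card| ≤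
        |((wc S 1 (X / 2) (3 ^ m) ((3 ^ m + 1) / 2 * i.1)).card : ℝ) -
          (wc S 1 (X / 2) (3 ^ m) ((3 ^ m + 1) / 2 * i.2)).card| + ε * X
      set P := ((wc S 1 (X / 2) (3 ^ m) ((3 ^ m + 1) / 2 * i.1)).card : ℝ)
      set Q := ((wc S 1 (X / 2) (3 ^ m) ((3 ^ m + 1) / 2 * i.2)).card : ℝ)
      have h5 := neg_abs_le (P - Q)
      have h6 := le_abs_self (P - Q)
      rw [abs_le] at g
      rw [s1', s2', abs_le]
      constructor
      · linarith [g.1]
      · linarith [g.2])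
  have h := key (c, c') X hX0 hXZ
  refine le_trans h ?_
  have hab := absorb B htp.le (m := m) (by linarith)
  rw [← hYexp] at hab
  have h1 : √Z ≤ (Real.exp 1 * (B.factorial * 4 ^ B)) / t ^ B * (Z / 3 ^ m) := by
    rw [div_mul_div_comm, le_div_iff₀ (by positivity)]
    calc √Z * (t ^ B * 3 ^ m) = √Z * (3 ^ m * t ^ B) := by ring
      _ ≤ √Z * ((Real.exp 1 * (B.factorial * 4 ^ B)) * √Z) := mul_le_mul_of_nonneg_left hab hY.le
      _ = (Real.exp 1 * (B.factorial * 4 ^ B)) * (√Z * √Z) := by ring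
      _ = _ := by rw [hYsq]
  have h2 : 2 * ε * X ≤ 2 * C * 2 ^ B / t ^ B * (Z / 3 ^ m) := by
    have e : 2 * ε * Z = 2 * C * 2 ^ B / t ^ B * (Z / 3 ^ m) := by
      rw [hε]; field_simp
    rw [← e]
    exact mul_le_mul_of_nonneg_left hXZ (by positivity)
  have h3 : 0 ≤ (3 ^ 32 * 6000 ^ B) / t ^ B * (Z / 3 ^ m) := by positivity
  calc 2 * ε * X + √Z ≤ 2 * C * 2 ^ B / t ^ B * (Z / 3 ^ m) +
        (Real.exp 1 * (B.factorial * 4 ^ B)) / t ^ B * (Z / 3 ^ m) +
        (3 ^ 32 * 6000 ^ B) / t ^ B * (Z / 3 ^ m) := by linarith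
    _ = _ := by ring

end Pool.Agent.P8H74.SM
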