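import Pool.Agent.P8H74.SM.Md
import Pool.Agent.TH237.RT.Int
import Pool.Agent.H723R2.LSWWander

/-! Smooth weights: sets of integers of both signs, and the function `f₀`. -/

set_option autoImplicit false

namespace Pool.Agent.P8H74.SM

open Pool.Agent.H499R2.ND Pool.Agent.H320R2.PD Finset Filter Topology MeasureTheory

/-- the weighted number of the `n ∈ S` of sign `s` with `n ≡ c` mod `q` -/
noncomputable def sc (φ : ℝ → ℝ) (s : ℤ) (S : Set ℤ) (q c : ℤ) (X : ℝ) : ℝ :=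
  ∑' n : {n : ℤ // 0 < s * n ∧ n ∈ S ∧ q ∣ n - c}, φ (((s * n : ℤ) : ℝ) / X)

theorem sc_eq (φ : ℝ → ℝ) {s : ℤ} (hs : s = 1 ∨ s = -1) (S : Set ℤ) (q c : ℤ) (X : ℝ) :
    sc φ s S q c X = Wt φ {x | s * x ∈ {x | 0 < s * x ∧ x ∈ S}} q (s * c) X := by
  classical
  have hss : ∀ x : ℤ, s * (s * x) = x := by
    intro x; rcases hs with rfl | rfl <;> ring
  let e : ℤ ≃ ℤ := ⟨fun x => s * x, fun x => s * x, hss, hss⟩
  unfold sc Wt
  have h1 : ∑' n : {n : ℤ // 0 < s * n ∧ n ∈ S ∧ q ∣ n - c}, φ (((s * n : ℤ) : ℝ) / X) =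
      ∑' n : ℤ, Set.indicator {n : ℤ | 0 < s * n ∧ n ∈ S ∧ q ∣ n - c}
        (fun n => φ (((s * n : ℤ) : ℝ) / X)) n :=
    tsum_subtype {n : ℤ | 0 < s * n ∧ n ∈ S ∧ q ∣ n - c} (fun n : ℤ => φ (((s * n : ℤ) : ℝ) / X))
  rw [h1, ← e.tsum_eq]
  apply tsum_congr
  intro x
  show Set.indicator {n : ℤ | 0 < s * n ∧ n ∈ S ∧ q ∣ n - c}
        (fun n => φ (((s * n : ℤ) : ℝ) / X)) (s * x) = _
  rw [Set.indicator_apply]
  have h2 : s * x ∈ {n : ℤ | 0 < s * n ∧ n ∈ S ∧ q ∣ n - c} ↔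
      (1 ≤ x ∧ x ∈ {x | s * x ∈ {x | 0 < s * x ∧ x ∈ S}} ∧ q ∣ x - s * c) := by
    show (0 < s * (s * x) ∧ s * x ∈ S ∧ q ∣ s * x - c) ↔
      (1 ≤ x ∧ (0 < s * (s * x) ∧ s * x ∈ S) ∧ q ∣ x - s * c)
    rw [hss]
    have h3 : q ∣ s * x - c ↔ q ∣ x - s * c := by
      have e1 : x - s * c = s * (s * x - c) := by rw [mul_sub, hss]
      have e2 : s * x - c = s * (x - s * c) := by rw [mul_sub, hss]
      constructor
      · intro h; rw [e1]; exact h.mul_left s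
      · intro h; rw [e2]; exact h.mul_left s
    rw [h3]
    constructor
    · rintro ⟨h4, h5, h6⟩
      exact ⟨by omega, ⟨h4, h5⟩, h6⟩
    · rintro ⟨_, ⟨h4, h5⟩, h6⟩
      exact ⟨h4, h5, h6⟩
  by_cases h3 : s * x ∈ {n : ℤ | 0 < s * n ∧ n ∈ S ∧ q ∣ n - c}
  · rw [if_pos h3, if_pos (h2.1 h3), hss]
  · rw [if_neg h3, if_neg (fun h => h3 (h2.2 h))]

theorem ci_tendsto {s : ℤ} (hs : s = 1 ∨ s = -1) {S : Set ℤ} {δ : ℝ}
    (h : Tendsto (fun X : ℝ => Pool.Agent.TH237.RT.ci s S X / X) atTop (𝓝 δ)) :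
    Tendsto (fun X : ℝ => ((pos {x | s * x ∈ {x | 0 < s * x ∧ x ∈ S}} X).card : ℝ) / X)
      atTop (𝓝 δ) := by
  have hb := fun X => Pool.Agent.TH237.RT.ci_bd (S := {x | 0 < s * x ∧ x ∈ S}) hs X
  have e : ∀ X, Pool.Agent.TH237.RT.ci s {x | 0 < s * x ∧ x ∈ S} X =
      Pool.Agent.TH237.RT.ci s S X := by
    intro X
    unfold Pool.Agent.TH237.RT.ci
    congr 2
    ext n
    constructor
    · rintro ⟨h1, h2, _, h4⟩; exact ⟨h1, h2, h4⟩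
    · rintro ⟨h1, h2, h4⟩; exact ⟨h1, h2, h1, h4⟩
  have h0 : Tendsto (fun X : ℝ => 1 / X) atTop (𝓝 0) := by
    simpa using tendsto_inv_atTop_zero
  have h1 : Tendsto (fun X : ℝ => Pool.Agent.TH237.RT.ci s S X / X - 1 / X) atTop (𝓝 δ) := by
    simpa using h.sub h0
  apply tendsto_of_tendsto_of_tendsto_of_le_of_le' h1 h
  · filter_upwards [eventually_gt_atTop 0] with X hX
    have h2 := (hb X).2
    rw [e] at h2
    rw [← sub_div]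
    apply div_le_div_of_nonneg_right _ hX.le
    show _ ≤ ((pos {x | s * x ∈ {x | 0 < s * x ∧ x ∈ S}} X).card : ℝ)
    have : G {x | s * x ∈ {x | 0 < s * x ∧ x ∈ S}} X =
      ((pos {x | s * x ∈ {x | 0 < s * x ∧ x ∈ S}} X).card : ℝ) := rfl
    linarith
  · filter_upwards [eventually_gt_atTop 0] with X hX
    have h2 := (hb X).1
    rw [e] at h2
    exact div_le_div_of_nonneg_right h2 hX.le

theorem main_int {φ : ℝ → ℝ} (h1 : ContDiff ℝ (⊤ : ℕ∞) φ) (h2 : HasCompactSupport φ) (B : ℕ) {s : ℤ}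
    (hs : s = 1 ∨ s = -1) : ∃ C : ℝ, 0 < C ∧ ∀ S : Set ℤ,
      (∀ x : ℤ, 0 < s * x → (x ∈ S ↔ Td 1 x ∈ S)) → ∀ δ : ℝ,
      Tendsto (fun X : ℝ => Pool.Agent.TH237.RT.ci s S X / X) atTop (𝓝 δ) →
      ∀ X : ℝ, 2 ≤ X → ∀ j m : ℕ, 12 * ((j : ℝ) + m) ^ 2 ≤ Real.log X → ∀ c : ℤ,
      |sc φ s S (2 ^ j * 3 ^ m) c X - δ * (X / (2 ^ j * 3 ^ m)) * ∫ x in Set.Ioi 0, φ x|
        ≤ C * (X / (2 ^ j * 3 ^ m)) / (Real.log X) ^ B := by
  have hd : s * 1 = 1 ∨ s * 1 = -1 := by rw [mul_one]; exact hs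
  obtain ⟨C, hC, he⟩ := main_classes B hd h1 h2
  refine ⟨C, hC, ?_⟩
  intro S hS δ hδ X hX j m hjm c
  rw [sc_eq φ hs]
  exact he _ (side_inv odd_one hs (Pool.Agent.TH237.RT.restrict_inv hs hS)) δ (ci_tendsto hs hδ) X hX
    j m hjm (s * c)

end Pool.Agent.P8H74.SM
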