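import Pool.Agent.P8H74.SM.Tw

/-! Smooth weights: the limit, and the main theorem for the maps `3x+1`, `3x-1` on the positive
integers. -/

set_option autoImplicit false

namespace Pool.Agent.P8H74.SM

open Pool.Agent.H499R2.ND Pool.Agent.H320R2.PD Finset Filter Topology MeasureTheory

variable {φ : ℝ → ℝ} {b P : ℝ}

theorem pos_eq_wc (S : Set ℤ) (X : ℝ) : pos S X = wc S 1 X 1 0 := by
  ext x
  rw [mem_pos, mem_wc]
  constructor
  · rintro ⟨⟨h1, h2⟩, h3⟩
    exact ⟨⟨by exact_mod_cast h1, h2⟩, h3, one_dvd _⟩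
  · rintro ⟨⟨h1, h2⟩, h3, _⟩
    exact ⟨⟨by exact_mod_cast h1, h2⟩, h3⟩

/-- Riemann sums -/
theorem riemann (h : Nice φ b P) {X : ℝ} (hX : 0 < X) {n : ℕ} (hn : b * X ≤ n) :
    |∑ i ∈ range n, φ (((i : ℝ) + 1) / X) - X * ∫ x in Set.Ioi 0, φ x| ≤ n * (P / X) := by
  have hcont : Continuous φ := by
    have : LipschitzWith (Real.toNNReal P) φ := by
      apply LipschitzWith.of_dist_le_mul
      intro x y
      rw [Real.dist_eq, Real.dist_eq, Real.coe_toNNReal P h.hP.le]
      exact h.lip x y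
    exact this.continuous
  have hb0 := h.hb
  have hn0 : (0 : ℝ) ≤ n := Nat.cast_nonneg n
  have hnX : b ≤ n / X := by rw [le_div_iff₀ hX]; exact hn
  have e1 : ∫ x in Set.Ioi 0, φ x = ∫ x in (0 : ℝ)..(n / X), φ x := by
    rw [intervalIntegral.integral_of_le (by positivity)]
    apply setIntegral_eq_of_subset_of_forall_sdiff_eq_zero measurableSet_Ioi
      (fun x hx => hx.1)
    intro x hx
    apply h.van
    by_contra hcon
    push Not at hcon
    exact hx.2 ⟨hx.1, by linarith⟩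
  have e2 : X * ∫ x in (0 : ℝ)..(n / X), φ x = ∫ u in (0 : ℝ)..n, φ (u / X) := by
    rw [intervalIntegral.integral_comp_div φ hX.ne', zero_div, smul_eq_mul]
  have hint : ∀ a c : ℝ, IntervalIntegrable (fun u => φ (u / X)) volume a c := fun a c =>
    (hcont.comp (continuous_id.div_const X)).intervalIntegrable a c
  have e3 : ∑ i ∈ range n, ∫ u in ((i : ℕ) : ℝ)..((i + 1 : ℕ) : ℝ), φ (u / X) =
      ∫ u in ((0 : ℕ) : ℝ)..n, φ (u / X) :=
    intervalIntegral.sum_integral_adjacent_intervals (fun k _ => hint _ _)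
  rw [Nat.cast_zero] at e3
  rw [e1, e2, ← e3, ← sum_sub_distrib]
  refine (Finset.abs_sum_le_sum_abs _ _).trans ?_
  have h1 : ∀ i ∈ range n, |φ (((i : ℝ) + 1) / X) -
      ∫ u in ((i : ℕ) : ℝ)..((i + 1 : ℕ) : ℝ), φ (u / X)| ≤ P / X := by
    intro i _
    have e4 : φ (((i : ℝ) + 1) / X) = ∫ u in ((i : ℕ) : ℝ)..((i + 1 : ℕ) : ℝ),
        φ (((i : ℝ) + 1) / X) := by
      rw [intervalIntegral.integral_const, smul_eq_mul]
      push_cast
      ring
    rw [e4, ← intervalIntegral.integral_sub (by simp) (hint _ _), ← Real.norm_eq_abs]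
    have h2 := intervalIntegral.norm_integral_le_of_norm_le_const (a := ((i : ℕ) : ℝ))
      (b := ((i + 1 : ℕ) : ℝ)) (C := P / X)
      (f := fun u => φ (((i : ℝ) + 1) / X) - φ (u / X)) (by
        intro u hu
        rw [Set.uIoc_of_le (by push_cast; linarith)] at hu
        obtain ⟨hu1, hu2⟩ := hu
        push_cast at hu2
        rw [Real.norm_eq_abs]
        refine (h.lip _ _).trans ?_
        rw [← sub_div, abs_div, abs_of_pos hX, abs_of_nonneg (by linarith)]
        rw [mul_div_assoc']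
        apply div_le_div_of_nonneg_right _ hX.le
        have := h.hP
        nlinarith)
    refine h2.trans ?_
    push_cast
    rw [add_sub_cancel_left, abs_one, mul_one]
  calc _ ≤ ∑ i ∈ range n, P / X := sum_le_sum h1
    _ = n * (P / X) := by rw [sum_const, card_range, nsmul_eq_mul]

/-- the limit of the normalised weighted count -/
theorem Gf_lim (h : Nice φ b P) {S : Set ℤ} {δ : ℝ}
    (hδ : Tendsto (fun X : ℝ => ((pos S X).card : ℝ) / X) atTop (𝓝 δ)) :
    Tendsto (Gf φ S) atTop (𝓝 (δ * ∫ x in Set.Ioi 0, φ x)) := by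
  classical
  have hb0 := h.hb
  have hP0 := h.hP
  suffices H : Tendsto (fun X : ℝ => Wt φ S 1 0 X / X) atTop (𝓝 (δ * ∫ x in Set.Ioi 0, φ x)) by
    have h1 := H.comp Real.tendsto_exp_atTop
    refine h1.congr (fun t => ?_)
    show Wt φ S 1 0 (Real.exp t) / Real.exp t = Real.exp (-t) * Wt φ S 1 0 (Real.exp t)
    rw [Real.exp_neg]
    field_simp
  rw [Metric.tendsto_atTop]
  intro ε hε
  rw [Metric.tendsto_atTop] at hδ
  set η : ℝ := ε / (2 * (P * (b + 2) ^ 2)) with hη
  have hη0 : 0 < η := by positivity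
  obtain ⟨X0, hX0⟩ := hδ η hη0
  set Y0 : ℝ := max X0 1 with hY0
  have hY01 : 1 ≤ Y0 := le_max_right _ _
  set Q : ℝ := (1 + |δ|) * (Y0 + 1) + |δ| with hQ
  have hQ0 : 0 ≤ Q := by positivity
  -- the count, all scales
  have hcount : ∀ j : ℕ, |((pos S ((j : ℝ) + 1)).card : ℝ) - δ * j| ≤ η * (j + 1) + Q := by
    intro j
    have hj0 : (0 : ℝ) ≤ j := Nat.cast_nonneg j
    rcases le_or_gt X0 ((j : ℝ) + 1) with hj | hj
    · have h1 := hX0 ((j : ℝ) + 1) hj
      rw [Real.dist_eq] at h1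
      have h2 : |((pos S ((j : ℝ) + 1)).card : ℝ) - δ * (j + 1)| ≤ η * (j + 1) := by
        have e : ((pos S ((j : ℝ) + 1)).card : ℝ) - δ * (j + 1) =
            (((pos S ((j : ℝ) + 1)).card : ℝ) / (j + 1) - δ) * (j + 1) := by field_simp
        rw [e, abs_mul, abs_of_pos (by linarith : (0 : ℝ) < j + 1)]
        exact mul_le_mul_of_nonneg_right h1.le (by linarith)
      have h3 : |δ| ≤ Q := by
        rw [hQ]
        have : 0 ≤ (1 + |δ|) * (Y0 + 1) := by positivity
        linarith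
      have h4 := neg_abs_le δ
      have h5 := le_abs_self δ
      rw [abs_le] at h2 ⊢
      constructor
      · linarith [h2.1]
      · linarith [h2.2]
    · have h1 := pos_card_le S (by linarith : (0 : ℝ) ≤ (j : ℝ) + 1)
      have h2 : (0 : ℝ) ≤ (pos S ((j : ℝ) + 1)).card := Nat.cast_nonneg _
      have h3 : X0 ≤ Y0 := le_max_left _ _
      have h4 : 0 ≤ η * (j + 1) := by positivity
      have h5 : |δ * j| ≤ |δ| * (Y0 + 1) := by
        rw [abs_mul, abs_of_nonneg hj0]
        exact mul_le_mul_of_nonneg_left (by linarith) (abs_nonneg _)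
      have h6 := abs_le.1 h5
      have h7 := abs_nonneg δ
      rw [hQ, abs_le]
      constructor
      · linarith [h6.1, h6.2]
      · linarith [h6.1, h6.2]
  have hη1 : η * (P * (b + 2) ^ 2) = ε / 2 := by rw [hη]; field_simp
  refine ⟨max 2 ((Q * P * (b + 2) + |δ| * (P * (b + 2))) * 4 / ε + 1), fun X hX => ?_⟩
  have hX2 : 2 ≤ X := (le_max_left _ _).trans hX
  have hX0' : 0 < X := by linarith
  have hX3 : (Q * P * (b + 2) + |δ| * (P * (b + 2))) * 4 / ε < X := by
    have := (le_max_right _ _).trans hX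
    linarith
  rw [div_lt_iff₀ hε] at hX3
  obtain ⟨n, hn1, hbn, hn2, hn3⟩ := nterms h.hb hX2
  have hn0 : (0 : ℝ) ≤ n := Nat.cast_nonneg n
  rw [Real.dist_eq]
  have e0 : Wt φ S 1 0 X = ∑ i ∈ range n, φ (((i : ℝ) + 1) / X) *
      (if ((i : ℤ) + 1 ∈ S) then (1 : ℝ) else 0) := by
    rw [Wt_eq h S 1 0 hX0' (by linarith : b * X ≤ (n : ℝ) + 1), sum_wc (fun x => φ (x / X))]
    apply sum_congr rfl
    intro i _
    push_cast
    simp only [one_dvd, and_true]
    split_ifs <;> ring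
  have key := abel (f := fun i : ℕ => φ (((i : ℝ) + 1) / X))
    (g := fun i : ℕ => (if ((i : ℤ) + 1 ∈ S) then (1 : ℝ) else 0) - δ)
    (n := n) (L := P / X) (H := η * (n + 1) + Q) (by positivity) (by
      intro i
      refine (h.lip _ _).trans ?_
      have e : (((i + 1 : ℕ) : ℝ) + 1) / X - ((i : ℝ) + 1) / X = 1 / X := by
        push_cast; ring
      rw [e, abs_of_pos (by positivity : (0 : ℝ) < 1 / X)]
      exact le_of_eq (by ring)) (by
      show φ ((((n - 1 : ℕ) : ℝ) + 1) / X) = 0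
      apply h.van
      rw [Nat.cast_sub hn1, Nat.cast_one, sub_add_cancel, le_div_iff₀ hX0']
      exact hbn) (by
      intro j hj
      have hj' : (j : ℝ) ≤ n := by exact_mod_cast hj
      have h1 := hcount j
      have e : ∑ i ∈ range j, ((if ((i : ℤ) + 1 ∈ S) then (1 : ℝ) else 0) - δ) =
          ((pos S ((j : ℝ) + 1)).card : ℝ) - δ * j := by
        rw [sum_sub_distrib, sum_const, card_range, nsmul_eq_mul, pos_eq_wc, card_wc]
        simp only [one_dvd, and_true]
        ring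
      rw [e]
      refine h1.trans ?_
      have : η * ((j : ℝ) + 1) ≤ η * (n + 1) := mul_le_mul_of_nonneg_left (by linarith) hη0.le
      linarith)
  have hR := riemann h hX0' hbn
  set I := ∫ x in Set.Ioi 0, φ x with hI
  have e1 : Wt φ S 1 0 X / X - δ * I = (∑ i ∈ range n, φ (((i : ℝ) + 1) / X) *
      ((if ((i : ℤ) + 1 ∈ S) then (1 : ℝ) else 0) - δ) +
      δ * (∑ i ∈ range n, φ (((i : ℝ) + 1) / X) - X * I)) / X := by
    have e2 : ∑ i ∈ range n, φ (((i : ℝ) + 1) / X) *
      ((if ((i : ℤ) + 1 ∈ S) then (1 : ℝ) else 0) - δ) =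
        Wt φ S 1 0 X - δ * ∑ i ∈ range n, φ (((i : ℝ) + 1) / X) := by
      rw [e0, mul_sum, ← sum_sub_distrib]
      apply sum_congr rfl
      intro i _
      ring
    rw [e2]
    field_simp
    ring
  rw [e1, abs_div, abs_of_pos hX0', div_lt_iff₀ hX0']
  refine (abs_add_le _ _).trans_lt ?_
  rw [abs_mul δ]
  have h1 : (n : ℝ) * (P / X * (η * (n + 1) + Q)) ≤ ε / 2 * X + Q * P * (b + 2) := by
    have h2 : (n : ℝ) ≤ (b + 2) * X := by linarith
    have hbX : 0 ≤ (b + 2) * X := by positivity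
    calc (n : ℝ) * (P / X * (η * (n + 1) + Q)) ≤ ((b + 2) * X) * (P / X * (η * ((b + 2) * X) + Q)) := by
          apply mul_le_mul h2 _ (by positivity) hbX
          apply mul_le_mul_of_nonneg_left _ (by positivity)
          have : η * ((n : ℝ) + 1) ≤ η * ((b + 2) * X) := mul_le_mul_of_nonneg_left hn3 hη0.le
          linarith
      _ = (η * (P * (b + 2) ^ 2)) * X + Q * P * (b + 2) := by field_simp
      _ = _ := by rw [hη1]
  have h2 : |δ| * |∑ i ∈ range n, φ (((i : ℝ) + 1) / X) - X * I| ≤ |δ| * (P * (b + 2)) := by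
    apply mul_le_mul_of_nonneg_left _ (abs_nonneg _)
    refine hR.trans ?_
    calc (n : ℝ) * (P / X) ≤ ((b + 2) * X) * (P / X) :=
          mul_le_mul_of_nonneg_right (by linarith) (by positivity)
      _ = P * (b + 2) := by field_simp
  have h3 := key.trans h1
  have hpos : 0 < ε * X := by positivity
  nlinarith

/-- MAIN THEOREM, positive integers, the maps `3x+1` and `3x-1` -/
theorem main_side (B : ℕ) {d : ℤ} (hd : d = 1 ∨ d = -1) (h1 : ContDiff ℝ (⊤ : ℕ∞) φ)
    (h2 : HasCompactSupport φ) : ∃ C : ℝ, 0 < C ∧ ∀ S : Set ℤ, Inv d S → ∀ δ : ℝ,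
      Tendsto (fun X : ℝ => ((pos S X).card : ℝ) / X) atTop (𝓝 δ) →
      ∀ X : ℝ, 2 ≤ X → ∀ m : ℕ, 6 * (m : ℝ) ^ 2 ≤ Real.log X → ∀ c : ℤ,
      |Wt φ S (3 ^ m) c X - δ * (X / 3 ^ m) * ∫ x in Set.Ioi 0, φ x|
        ≤ C * (X / 3 ^ m) / (Real.log X) ^ B := by
  have hodd : Odd d := by rcases hd with rfl | rfl <;> decide
  have hcop : IsCoprime d 3 := by
    rcases hd with rfl | rfl
    · exact isCoprime_one_left
    · exact isCoprime_one_left.neg_left
  obtain ⟨b, P, hn⟩ := exists_nice h1 h2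
  obtain ⟨M, K, hT⟩ := tower hd h1 h2
  obtain ⟨C1, hC1, hc⟩ := conv (M := M) (K := K) B
  obtain ⟨C2, hC2, he⟩ := avg_W B hodd hcop
  have hb0 := hn.hb
  have hP0 := hn.hP
  set I := ∫ x in Set.Ioi 0, φ x with hI
  refine ⟨C1 + C2 * (P * (b + 2) ^ 2) + P * b + |I|, by positivity, ?_⟩
  intro S hS δ hδ X hX m hm c
  have hX0 : 0 < X := by linarith
  set t := Real.log X with ht
  have ht0 : 0 < t := Real.log_pos (by linarith)
  have hexp : Real.exp t = X := Real.exp_log hX0
  have hq : (0 : ℝ) < 3 ^ m := by positivity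
  have hδ01 : |δ| ≤ 1 := by
    have h3 : ∀ᶠ X : ℝ in atTop, ((pos S X).card : ℝ) / X ≤ 1 := by
      filter_upwards [eventually_gt_atTop 0] with Y hY
      rw [div_le_one hY]; exact pos_card_le S hY.le
    have h4 : ∀ᶠ X : ℝ in atTop, 0 ≤ ((pos S X).card : ℝ) / X := by
      filter_upwards [eventually_gt_atTop 0] with Y hY
      positivity
    rw [abs_of_nonneg (ge_of_tendsto hδ h4)]
    exact le_of_tendsto hδ h3
  have main : |Wt φ S 1 0 X - δ * X * I| ≤ (C1 + P * b + |I|) * X / t ^ B := by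
    rcases lt_or_ge t 1 with hsm | hbig
    · have h3 := Wt_abs_le hn S 1 0 hX0
      have h4 : |δ * X * I| ≤ |I| * X := by
        rw [abs_mul, abs_mul, abs_of_pos hX0]
        calc |δ| * X * |I| ≤ 1 * X * |I| := by gcongr
          _ = _ := by ring
      have h5 : |Wt φ S 1 0 X - δ * X * I| ≤ P * b * X + |I| * X :=
        (abs_sub _ _).trans (add_le_add h3 h4)
      refine h5.trans ?_
      rw [le_div_iff₀ (by positivity)]
      have h6 : t ^ B ≤ 1 := pow_le_one₀ ht0.le hsm.le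
      have h7 : 0 ≤ P * b * X + |I| * X := by positivity
      have h8 : (P * b * X + |I| * X) * t ^ B ≤ P * b * X + |I| * X := by nlinarith
      have h9 : 0 ≤ C1 * X := by positivity
      linarith
    · have h3 := hc _ (hT S hS) (δ * I) (Gf_lim hn hδ) t hbig
      have e : Gf (sq φ 0) S t = Real.exp (-t) * Wt φ S 1 0 X := by
        show Real.exp (-t) * Wt φ S 1 0 (Real.exp t) = _
        rw [hexp]
      rw [e, Real.exp_neg, hexp] at h3
      have e2 : Wt φ S 1 0 X - δ * X * I = (X⁻¹ * Wt φ S 1 0 X - δ * I) * X := by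
        field_simp
      rw [e2, abs_mul, abs_of_pos hX0]
      calc _ ≤ C1 / t ^ B * X := mul_le_mul_of_nonneg_right h3 hX0.le
        _ = C1 * X / t ^ B := by ring
        _ ≤ (C1 + P * b + |I|) * X / t ^ B := by
            apply div_le_div_of_nonneg_right _ (by positivity)
            apply mul_le_mul_of_nonneg_right _ hX0.le
            have : 0 ≤ P * b := by positivity
            linarith [abs_nonneg I]
  have h3 := he S hS φ b P hn X hX m (by linarith) c
  rw [← ht] at h3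
  have e : Wt φ S (3 ^ m) c X - δ * (X / 3 ^ m) * I =
      (Wt φ S (3 ^ m) c X - Wt φ S 1 0 X / 3 ^ m) + (Wt φ S 1 0 X - δ * X * I) / 3 ^ m := by
    field_simp
    ring
  rw [e]
  refine (abs_add_le _ _).trans ?_
  rw [abs_div, abs_of_pos hq]
  have h4 : |Wt φ S 1 0 X - δ * X * I| / 3 ^ m ≤ (C1 + P * b + |I|) * X / t ^ B / 3 ^ m :=
    div_le_div_of_nonneg_right main hq.le
  have e5 : (C1 + C2 * (P * (b + 2) ^ 2) + P * b + |I|) * (X / 3 ^ m) / t ^ B =
      C2 * (P * (b + 2) ^ 2) / t ^ B * (X / 3 ^ m) + (C1 + P * b + |I|) * X / t ^ B / 3 ^ m := by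
    field_simp
    ring
  rw [e5]
  exact add_le_add h3 h4

end Pool.Agent.P8H74.SM
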