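import Pool.Agent.P8H74.SM.Lm

/-! Smooth weights: classes mod `2^j 3^m`. -/

set_option autoImplicit false

namespace Pool.Agent.P8H74.SM

open Pool.Agent.H499R2.ND Pool.Agent.H320R2.PD Finset Filter Topology MeasureTheory

variable {φ : ℝ → ℝ} {b P : ℝ}

theorem Wt_even (h : Nice φ b P) {d : ℤ} {S : Set ℤ} (hS : Inv d S) (q c : ℤ) {X : ℝ}
    (hX : 0 < X) : Wt φ S (2 * q) (2 * c) X = Wt φ S q c (X / 2) := by
  rw [Wt_eq h S (2 * q) (2 * c) hX le_rfl, Wt_eq h S q c (by linarith : 0 < X / 2)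
    (by linarith : b * (X / 2) ≤ b * X / 2)]
  symm
  apply sum_nbij (i := fun y => 2 * y)
  · intro y hy
    rw [mem_wc] at hy
    rw [mem_wc]
    push_cast
    refine ⟨⟨by linarith [hy.1.1], by linarith [hy.1.2]⟩, (hS.two y).2 hy.2.1, ?_⟩
    rw [← mul_sub]
    exact mul_dvd_mul_left 2 hy.2.2
  · intro x _ y _ hxy
    simp only at hxy
    omega
  · intro x hx
    rw [mem_coe, mem_wc] at hx
    obtain ⟨h1, h2, k, hk⟩ := hx
    have hk' : x = 2 * (c + q * k) := by linarith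
    have hxy : (x : ℝ) = 2 * ((c + q * k : ℤ) : ℝ) := by rw [hk']; push_cast; ring
    have hy1 : 1 ≤ c + q * k := by
      have : (1 : ℤ) ≤ x := by exact_mod_cast h1.1
      omega
    refine ⟨c + q * k, ?_, hk'.symm⟩
    rw [mem_coe, mem_wc]
    refine ⟨⟨by exact_mod_cast hy1, by linarith [h1.2]⟩, ?_, ⟨k, by ring⟩⟩
    rw [← hS.two, ← hk']; exact h2
  · intro y _
    congr 1
    push_cast
    field_simp

theorem Wt_odd (h : Nice φ b P) {d : ℤ} (hd : d = 1 ∨ d = -1) {S : Set ℤ} (hS : Inv d S)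
    (q c c' : ℤ) (hc : 2 * c' = 3 * c + d) {X : ℝ} (hX : 2 ≤ X) :
    |Wt φ S (2 * q) c X - Wt φ S (3 * q) c' (3 * X / 2)| ≤ P * (b + 2) := by
  have hodd : Odd d := by rcases hd with rfl | rfl <;> decide
  have hX0 : 0 < X := by linarith
  have hb0 := h.hb
  have hP0 := h.hP
  have hbX : 0 < b * X := by positivity
  have hdR : |(d : ℝ)| = 1 := by rcases hd with rfl | rfl <;> simp
  have hdR' := abs_le.1 hdR.le
  set Y := b * X + 1 with hY
  have e2 : Wt φ S (3 * q) c' (3 * X / 2) =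
      ∑ y ∈ wc S 1 ((3 * Y + d) / 2) (3 * q) c', φ (y / (3 * X / 2)) := by
    apply Wt_eq h S (3 * q) c' (by linarith)
    rw [hY]
    linarith [hdR'.1]
  have e3 : Wt φ S (2 * q) c X =
      ∑ y ∈ wc S 1 ((3 * Y + d) / 2) (3 * q) c', φ ((((2 * y - d) / 3 : ℤ) : ℝ) / X) := by
    rw [Wt_eq h S (2 * q) c hX0 (by linarith : b * X ≤ Y)]
    apply sum_nbij' (i := fun n => (3 * n + d) / 2) (j := fun y => (2 * y - d) / 3)
    · intro n hn
      rw [mem_wc] at hn
      obtain ⟨h1, h2, k, hk⟩ := hn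
      have hnk : n = c + 2 * (q * k) := by linarith
      have hev : 2 * ((3 * n + d) / 2) = 3 * n + d := by omega
      have hno : Odd n := by
        obtain ⟨r, hr⟩ := hodd
        rw [Int.odd_iff]; omega
      have hR : (2 : ℝ) * (((3 * n + d) / 2 : ℤ) : ℝ) = 3 * n + d := by exact_mod_cast hev
      have hn1 : (1 : ℤ) ≤ n := by exact_mod_cast h1.1
      rw [mem_wc]
      refine ⟨⟨?_, by linarith [h1.2]⟩, (hS.odd hno hev).1 h2, ?_⟩
      · have : (1 : ℤ) ≤ (3 * n + d) / 2 := by rcases hd with rfl | rfl <;> omega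
        exact_mod_cast this
      · refine ⟨k, ?_⟩
        have : 2 * ((3 * n + d) / 2 - c') = 2 * (3 * q * k) := by
          rw [mul_sub, hev, hc, hnk]; ring
        linarith
    · intro y hy
      rw [mem_wc] at hy
      obtain ⟨h1, h2, k, hk⟩ := hy
      have hyk : y = c' + 3 * (q * k) := by linarith
      have hn : 2 * y = 3 * (c + 2 * (q * k)) + d := by omega
      have e : (2 * y - d) / 3 = c + 2 * (q * k) := by omega
      have hod : Odd (c + 2 * (q * k)) := by
        obtain ⟨r, hr⟩ := hodd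
        rw [Int.odd_iff]; omega
      have hR : (2 : ℝ) * y = 3 * ((c + 2 * (q * k) : ℤ) : ℝ) + d := by exact_mod_cast hn
      have hy1 : (1 : ℤ) ≤ y := by exact_mod_cast h1.1
      rw [e, mem_wc]
      refine ⟨⟨?_, by linarith [h1.2]⟩, (hS.odd hod hn).2 h2, ⟨k, by ring⟩⟩
      have : (1 : ℤ) ≤ c + 2 * (q * k) := by rcases hd with rfl | rfl <;> omega
      exact_mod_cast this
    · intro n hn
      rw [mem_wc] at hn
      obtain ⟨h1, h2, k, hk⟩ := hn
      have hnk : n = c + 2 * (q * k) := by linarith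
      omega
    · intro y hy
      rw [mem_wc] at hy
      obtain ⟨h1, h2, k, hk⟩ := hy
      have hyk : y = c' + 3 * (q * k) := by linarith
      omega
    · intro n hn
      rw [mem_wc] at hn
      obtain ⟨h1, h2, k, hk⟩ := hn
      have hnk : n = c + 2 * (q * k) := by linarith
      have e : (2 * ((3 * n + d) / 2) - d) / 3 = n := by omega
      rw [e]
  rw [e2, e3, ← sum_sub_distrib]
  refine (Finset.abs_sum_le_sum_abs _ _).trans ?_
  have h2 : ∀ y ∈ wc S 1 ((3 * Y + d) / 2) (3 * q) c',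
      |φ ((((2 * y - d) / 3 : ℤ) : ℝ) / X) - φ (y / (3 * X / 2))| ≤ P / (3 * X) := by
    intro y hy
    rw [mem_wc] at hy
    obtain ⟨_, _, k, hk⟩ := hy
    have hyk : y = c' + 3 * (q * k) := by linarith
    refine (h.lip _ _).trans ?_
    have hn : 3 * ((2 * y - d) / 3) = 2 * y - d := by omega
    have hR : (3 : ℝ) * (((2 * y - d) / 3 : ℤ) : ℝ) = 2 * y - d := by exact_mod_cast hn
    have e : (((2 * y - d) / 3 : ℤ) : ℝ) / X - y / (3 * X / 2) = -(d / (3 * X)) := by
      field_simp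
      linarith
    rw [e, abs_neg, abs_div, hdR, abs_of_pos (by positivity : 0 < 3 * X)]
    exact le_of_eq (by ring)
  calc _ ≤ ∑ y ∈ wc S 1 ((3 * Y + d) / 2) (3 * q) c', P / (3 * X) := sum_le_sum h2
    _ = (wc S 1 ((3 * Y + d) / 2) (3 * q) c').card * (P / (3 * X)) := by
        rw [sum_const, nsmul_eq_mul]
    _ ≤ ((3 * Y + d) / 2) * (P / (3 * X)) := by
        apply mul_le_mul_of_nonneg_right _ (by positivity)
        apply wc_le_pos
        rw [hY]; linarith [hdR'.1]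
    _ ≤ (3 * (b + 2) * X) * (P / (3 * X)) := by
        apply mul_le_mul_of_nonneg_right _ (by positivity)
        rw [hY]
        nlinarith [hdR'.2]
    _ = P * (b + 2) := by field_simp

/-- from classes mod `3^m` to classes mod `2^j 3^m` -/
theorem two_classes (h : Nice φ b P) {d : ℤ} (hd : d = 1 ∨ d = -1) {S : Set ℤ} (hS : Inv d S)
    {ρ L E : ℝ} (hL : 0 ≤ L)
    (hbase : ∀ (m : ℕ) (c : ℤ) (X : ℝ), 0 < X → L ≤ Real.log X → 6 * (m : ℝ) ^ 2 ≤ L →
      |Wt φ S (3 ^ m) c X - ρ * (X / 3 ^ m)| ≤ E * (X / 3 ^ m)) :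
    ∀ (j m : ℕ) (c : ℤ) (X : ℝ), 0 < X → L + j * Real.log 2 ≤ Real.log X →
      6 * ((j : ℝ) + m) ^ 2 ≤ L →
      |Wt φ S (2 ^ j * 3 ^ m) c X - ρ * (X / (2 ^ j * 3 ^ m))| ≤
        E * (X / (2 ^ j * 3 ^ m)) + j * (P * (b + 2)) := by
  intro j
  have hl2 := Real.log_two_gt_d9
  induction j with
  | zero =>
    intro m c X hX hlog hm
    have := hbase m c X hX (by simpa using hlog) (by simpa using hm)
    simpa using this
  | succ j ih =>
    intro m c X hX hlog hm
    push_cast at hlog hm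
    have hj0 : (0 : ℝ) ≤ j := Nat.cast_nonneg j
    have hm0 : (0 : ℝ) ≤ m := Nat.cast_nonneg m
    have hK : 0 < P * (b + 2) := by
      have := h.hb
      have := h.hP
      positivity
    have hX2 : 2 ≤ X := by
      rw [← Real.log_le_log_iff (by norm_num) hX]
      nlinarith
    have hXhalf : Real.log (X / 2) = Real.log X - Real.log 2 := Real.log_div hX.ne' (by norm_num)
    rcases Int.even_or_odd c with he | ho
    · obtain ⟨c1, hc1⟩ := he
      have hc2 : c = 2 * c1 := by omega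
      have e1 : (2 : ℤ) ^ (j + 1) * 3 ^ m = 2 * (2 ^ j * 3 ^ m) := by ring
      rw [e1, hc2, Wt_even h hS _ _ hX]
      have h1 := ih m c1 (X / 2) (by linarith) (by rw [hXhalf]; linarith) (by nlinarith)
      have e2 : X / 2 / ((2 : ℝ) ^ j * 3 ^ m) = X / (2 ^ (j + 1) * 3 ^ m) := by
        rw [div_div, pow_succ]; ring_nf
      rw [e2] at h1
      refine h1.trans ?_
      push_cast
      linarith
    · have hdo : Odd d := by rcases hd with rfl | rfl <;> decide
      obtain ⟨r, hr⟩ := ho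
      obtain ⟨r', hr'⟩ := hdo
      obtain ⟨c', hc'⟩ : ∃ c' : ℤ, 2 * c' = 3 * c + d := ⟨3 * r + r' + 2, by rw [hr, hr']; ring⟩
      have e1 : (2 : ℤ) ^ (j + 1) * 3 ^ m = 2 * (2 ^ j * 3 ^ m) := by ring
      have h1 := Wt_odd h hd hS (2 ^ j * 3 ^ m) c c' hc' hX2
      have e2 : (3 : ℤ) * (2 ^ j * 3 ^ m) = 2 ^ j * 3 ^ (m + 1) := by ring
      rw [← e1, e2] at h1
      have hlog3 : Real.log X ≤ Real.log (3 * X / 2) := Real.log_le_log hX (by linarith)
      have h2 := ih (m + 1) c' (3 * X / 2) (by linarith) (by linarith) (by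
        push_cast
        have : ((j : ℝ) + (m + 1)) = (j + 1) + m := by ring
        rw [this]; exact hm)
      have e3 : 3 * X / 2 / ((2 : ℝ) ^ j * 3 ^ (m + 1)) = X / (2 ^ (j + 1) * 3 ^ m) := by
        rw [pow_succ, pow_succ]
        field_simp
      rw [e3] at h2
      have e4 : Wt φ S (2 ^ (j + 1) * 3 ^ m) c X - ρ * (X / (2 ^ (j + 1) * 3 ^ m)) =
          (Wt φ S (2 ^ (j + 1) * 3 ^ m) c X - Wt φ S (2 ^ j * 3 ^ (m + 1)) c' (3 * X / 2)) +
          (Wt φ S (2 ^ j * 3 ^ (m + 1)) c' (3 * X / 2) - ρ * (X / (2 ^ (j + 1) * 3 ^ m))) := by ring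
      rw [e4]
      refine (abs_add_le _ _).trans ?_
      push_cast
      linarith

/-- MAIN THEOREM, positive integers, the maps `3x+1` and `3x-1`, classes mod `2^j 3^m` -/
theorem main_classes (B : ℕ) {d : ℤ} (hd : d = 1 ∨ d = -1) (h1 : ContDiff ℝ (⊤ : ℕ∞) φ)
    (h2 : HasCompactSupport φ) : ∃ C : ℝ, 0 < C ∧ ∀ S : Set ℤ, Inv d S → ∀ δ : ℝ,
      Tendsto (fun X : ℝ => ((pos S X).card : ℝ) / X) atTop (𝓝 δ) →
      ∀ X : ℝ, 2 ≤ X → ∀ j m : ℕ, 12 * ((j : ℝ) + m) ^ 2 ≤ Real.log X → ∀ c : ℤ,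
      |Wt φ S (2 ^ j * 3 ^ m) c X - δ * (X / (2 ^ j * 3 ^ m)) * ∫ x in Set.Ioi 0, φ x|
        ≤ C * (X / (2 ^ j * 3 ^ m)) / (Real.log X) ^ B := by
  obtain ⟨b, P, hn⟩ := exists_nice h1 h2
  obtain ⟨C, hC, hm⟩ := main_side B hd h1 h2
  have hb0 := hn.hb
  have hP0 := hn.hP
  set I := ∫ x in Set.Ioi 0, φ x with hI
  set A : ℝ := Real.exp 1 * ((B + 1).factorial * 4 ^ (B + 1)) with hA
  refine ⟨C * 2 ^ B + A * (P * (b + 2)) , by positivity, ?_⟩
  intro S hS δ hδ X hX j m hjm c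
  have hX0 : 0 < X := by linarith
  have hj0 : (0 : ℝ) ≤ j := Nat.cast_nonneg j
  have hm0 : (0 : ℝ) ≤ m := Nat.cast_nonneg m
  set t := Real.log X with ht
  have ht0 : 0 < t := Real.log_pos (by linarith)
  have hl2 := Real.log_two_lt_d9
  rcases lt_or_ge t 12 with hsm | hbig
  · have h3 : ((j : ℝ) + m) ^ 2 < 1 := by linarith
    have hj : j = 0 := by
      by_contra hcon
      have : (1 : ℝ) ≤ j := by exact_mod_cast Nat.one_le_iff_ne_zero.2 hcon
      nlinarith
    have hm' : m = 0 := by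
      by_contra hcon
      have : (1 : ℝ) ≤ m := by exact_mod_cast Nat.one_le_iff_ne_zero.2 hcon
      nlinarith
    subst hj hm'
    have h4 := hm S hS δ hδ X hX 0 (by simpa using ht0.le) c
    simp only [pow_zero, mul_one, div_one] at h4 ⊢
    refine h4.trans ?_
    apply div_le_div_of_nonneg_right _ (by positivity)
    apply mul_le_mul_of_nonneg_right _ hX0.le
    have h5 : (1 : ℝ) ≤ 2 ^ B := one_le_pow₀ (by norm_num)
    have h6 : 0 ≤ A * (P * (b + 2)) := by positivity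
    nlinarith
  -- the main case
  have hjt : (j : ℝ) ≤ t / 12 := by
    rcases Nat.eq_zero_or_pos j with hj | hj
    · rw [hj]; push_cast; positivity
    · have h3 : (1 : ℝ) ≤ j := by exact_mod_cast hj
      nlinarith
  have key := two_classes hn hd hS (ρ := δ * I) (L := t / 2) (E := C * 2 ^ B / t ^ B)
    (by positivity) (by
      intro m' c' X' hX' hlog' hm'
      have h3 : 2 ≤ X' := by
        rw [← Real.log_le_log_iff (by norm_num) hX']
        linarith
      have h4 := hm S hS δ hδ X' h3 m' (by linarith) c'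
      have e : δ * I * (X' / 3 ^ m') = δ * (X' / 3 ^ m') * I := by ring
      rw [e]
      refine h4.trans ?_
      have h5 : C / Real.log X' ^ B ≤ C * 2 ^ B / t ^ B := by
        calc C / Real.log X' ^ B ≤ C / (t / 2) ^ B :=
              div_le_div_of_nonneg_left hC.le (by positivity)
                (pow_le_pow_left₀ (by positivity) hlog' B)
          _ = C * 2 ^ B / t ^ B := by rw [div_pow, div_div_eq_mul_div]
      calc C * (X' / 3 ^ m') / Real.log X' ^ B = C / Real.log X' ^ B * (X' / 3 ^ m') := by ring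
        _ ≤ C * 2 ^ B / t ^ B * (X' / 3 ^ m') := mul_le_mul_of_nonneg_right h5 (by positivity))
    j m c X hX0 (by rw [← ht]; nlinarith) (by linarith)
  have e : δ * (X / (2 ^ j * 3 ^ m)) * I = δ * I * (X / (2 ^ j * 3 ^ m)) := by ring
  rw [e]
  refine key.trans ?_
  have h3 : (j : ℝ) * (P * (b + 2)) ≤ A * (P * (b + 2)) * (X / (2 ^ j * 3 ^ m)) / t ^ B := by
    rw [le_div_iff₀ (by positivity), mul_div_assoc', le_div_iff₀ (by positivity)]
    have h4 := absorb (B + 1) ht0.le (m := j + m) (by push_cast; linarith)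
    have h5 : (2 : ℝ) ^ j * 3 ^ m ≤ 3 ^ (j + m) := by
      rw [pow_add]
      exact mul_le_mul_of_nonneg_right (pow_le_pow_left₀ (by norm_num) (by norm_num) j)
        (by positivity)
    have h6 : Real.exp (t / 2) ≤ X := by
      have : Real.exp t = X := Real.exp_log hX0
      rw [← this]
      exact Real.exp_le_exp.2 (by linarith)
    have h7 : (j : ℝ) * t ^ B ≤ t ^ (B + 1) := by
      rw [pow_succ, mul_comm]
      exact mul_le_mul_of_nonneg_left (by linarith) (by positivity)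
    calc (j : ℝ) * (P * (b + 2)) * t ^ B * (2 ^ j * 3 ^ m)
        = ((j : ℝ) * t ^ B) * (P * (b + 2)) * (2 ^ j * 3 ^ m) := by ring
      _ ≤ t ^ (B + 1) * (P * (b + 2)) * 3 ^ (j + m) := by gcongr
      _ = (3 ^ (j + m) * t ^ (B + 1)) * (P * (b + 2)) := by ring
      _ ≤ (A * Real.exp (t / 2)) * (P * (b + 2)) := mul_le_mul_of_nonneg_right h4 (by positivity)
      _ ≤ (A * X) * (P * (b + 2)) := by
          have : 0 ≤ A := by positivity
          gcongr
      _ = A * (P * (b + 2)) * X := by ring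
  have e2 : (C * 2 ^ B + A * (P * (b + 2))) * (X / (2 ^ j * 3 ^ m)) / t ^ B =
      C * 2 ^ B / t ^ B * (X / (2 ^ j * 3 ^ m)) +
      A * (P * (b + 2)) * (X / (2 ^ j * 3 ^ m)) / t ^ B := by ring
  rw [e2]
  linarith

end Pool.Agent.P8H74.SM
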