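import Pool.Agent.P8H74.SM.Eq

/-! Smooth weights: equidistribution of an invariant set in the classes mod `3^m`, and the
harmonic relation. -/

set_option autoImplicit false

namespace Pool.Agent.P8H74.SM

open Pool.Agent.H499R2.ND Pool.Agent.H320R2.PD Finset

/-- Abel summation -/
theorem abel {f g : ℕ → ℝ} {n : ℕ} {L H : ℝ} (hH : 0 ≤ H) (hL : ∀ i, |f (i + 1) - f i| ≤ L)
    (hend : f (n - 1) = 0) (hG : ∀ j, j ≤ n → |∑ i ∈ range j, g i| ≤ H) :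
    |∑ i ∈ range n, f i * g i| ≤ n * (L * H) := by
  have hL0 : 0 ≤ L := (abs_nonneg _).trans (hL 0)
  have h := Finset.sum_range_by_parts f g n
  simp only [smul_eq_mul] at h
  rw [h, hend, zero_mul, zero_sub, abs_neg]
  refine (Finset.abs_sum_le_sum_abs _ _).trans ?_
  calc ∑ i ∈ range (n - 1), |(f (i + 1) - f i) * ∑ j ∈ range (i + 1), g j|
      ≤ ∑ i ∈ range (n - 1), L * H := by
        apply sum_le_sum
        intro i hi
        rw [mem_range] at hi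
        rw [abs_mul]
        exact mul_le_mul (hL i) (hG (i + 1) (by omega)) (abs_nonneg _) hL0
    _ = ((n - 1 : ℕ) : ℝ) * (L * H) := by rw [sum_const, card_range, nsmul_eq_mul]
    _ ≤ n * (L * H) := by
        apply mul_le_mul_of_nonneg_right _ (by positivity)
        exact_mod_cast Nat.sub_le n 1

/-- bounded Lipschitz weights vanishing from `b` on -/
structure Nice (φ : ℝ → ℝ) (b P : ℝ) : Prop where
  hb : 1 ≤ b
  hP : 0 < P
  van : ∀ x, b ≤ x → φ x = 0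
  bd : ∀ x, |φ x| ≤ P
  lip : ∀ x y, |φ x - φ y| ≤ P * |x - y|

open scoped Classical in
/-- the weighted number of the positive elements of `S` congruent to `c` mod `q` -/
noncomputable def Wt (φ : ℝ → ℝ) (S : Set ℤ) (q c : ℤ) (X : ℝ) : ℝ :=
  ∑' x : ℤ, if 1 ≤ x ∧ x ∈ S ∧ q ∣ x - c then φ (x / X) else 0

variable {φ : ℝ → ℝ} {b P : ℝ}

theorem Wt_eq (h : Nice φ b P) (S : Set ℤ) (q c : ℤ) {X Y : ℝ} (hX : 0 < X) (hY : b * X ≤ Y) :
    Wt φ S q c X = ∑ x ∈ wc S 1 Y q c, φ (x / X) := by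
  classical
  unfold Wt
  rw [tsum_eq_sum (s := wc S 1 Y q c)]
  · apply sum_congr rfl
    intro x hx
    rw [mem_wc] at hx
    rw [if_pos ⟨by exact_mod_cast hx.1.1, hx.2⟩]
  · intro x hx
    split_ifs with h1
    · rw [mem_wc] at hx
      apply h.van
      rw [le_div_iff₀ hX]
      by_contra hcon
      push Not at hcon
      exact hx ⟨⟨by exact_mod_cast h1.1, by linarith⟩, h1.2⟩
    · rfl

theorem Wt_abs_le (h : Nice φ b P) (S : Set ℤ) (q c : ℤ) {X : ℝ} (hX : 0 < X) :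
    |Wt φ S q c X| ≤ P * b * X := by
  rw [Wt_eq h S q c hX le_rfl]
  refine (Finset.abs_sum_le_sum_abs _ _).trans ?_
  have hb0 : 0 < b := by linarith [h.hb]
  calc ∑ x ∈ wc S 1 (b * X) q c, |φ (x / X)| ≤ ∑ x ∈ wc S 1 (b * X) q c, P :=
        sum_le_sum fun x _ => h.bd _
    _ = (wc S 1 (b * X) q c).card * P := by rw [sum_const, nsmul_eq_mul]
    _ ≤ (b * X) * P := mul_le_mul_of_nonneg_right (wc_le_pos S (by positivity) q c) h.hP.le
    _ = _ := by ring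

open scoped Classical in
theorem sum_wc (F : ℤ → ℝ) (S : Set ℤ) (q c : ℤ) (n : ℕ) :
    ∑ x ∈ wc S 1 ((n : ℝ) + 1) q c, F x =
      ∑ i ∈ range n, if ((i : ℤ) + 1 ∈ S ∧ q ∣ (i : ℤ) + 1 - c) then F ((i : ℤ) + 1) else 0 := by
  rw [← sum_filter]
  apply sum_nbij' (i := fun x : ℤ => (x - 1).toNat) (j := fun i : ℕ => (i : ℤ) + 1)
  · intro x hx
    rw [mem_wc] at hx
    have h1 : (1 : ℤ) ≤ x := by exact_mod_cast hx.1.1
    have h2 : x < (n : ℤ) + 1 := by exact_mod_cast hx.1.2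
    have e : (((x - 1).toNat : ℕ) : ℤ) = x - 1 := Int.toNat_of_nonneg (by omega)
    rw [mem_filter, mem_range, e]
    have e2 : x - 1 + 1 = x := by ring
    rw [e2]
    exact ⟨by omega, hx.2⟩
  · intro i hi
    rw [mem_filter, mem_range] at hi
    rw [mem_wc]
    push_cast
    have h1 : (0 : ℝ) ≤ i := Nat.cast_nonneg i
    have h2 : (i : ℝ) < n := by exact_mod_cast hi.1
    exact ⟨⟨by linarith, by linarith⟩, hi.2⟩
  · intro x hx
    rw [mem_wc] at hx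
    have h1 : (1 : ℤ) ≤ x := by exact_mod_cast hx.1.1
    have e : (((x - 1).toNat : ℕ) : ℤ) = x - 1 := Int.toNat_of_nonneg (by omega)
    rw [e]; ring
  · intro i hi
    simp
  · intro x hx
    rw [mem_wc] at hx
    have h1 : (1 : ℤ) ≤ x := by exact_mod_cast hx.1.1
    have e : (((x - 1).toNat : ℕ) : ℤ) = x - 1 := Int.toNat_of_nonneg (by omega)
    rw [e]
    have e2 : x - 1 + 1 = x := by ring
    rw [e2]

open scoped Classical in
theorem card_wc (S : Set ℤ) (q c : ℤ) (n : ℕ) :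
    ((wc S 1 ((n : ℝ) + 1) q c).card : ℝ) =
      ∑ i ∈ range n, if ((i : ℤ) + 1 ∈ S ∧ q ∣ (i : ℤ) + 1 - c) then (1 : ℝ) else 0 := by
  have h := sum_wc (fun _ => 1) S q c n
  rw [sum_const, nsmul_eq_mul, mul_one] at h
  exact h

/-- the number of terms -/
theorem nterms (hb : 1 ≤ b) {X : ℝ} (hX : 2 ≤ X) : ∃ n : ℕ, 1 ≤ n ∧ b * X ≤ n ∧ (n : ℝ) ≤ b * X + 2 ∧
    (n : ℝ) + 1 ≤ (b + 2) * X := by
  have h1 : b * X ≤ ⌈b * X⌉₊ := Nat.le_ceil _
  have h2 : (⌈b * X⌉₊ : ℝ) < b * X + 1 := Nat.ceil_lt_add_one (by positivity)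
  refine ⟨⌈b * X⌉₊ + 1, by omega, ?_, ?_, ?_⟩
  · push_cast; linarith
  · push_cast; linarith
  · push_cast; nlinarith

/-- EQUIDISTRIBUTION with smooth weights -/
theorem equi_W (B : ℕ) {d : ℤ} (hd : Odd d) (hd3 : IsCoprime d 3) : ∃ C : ℝ, 0 < C ∧
    ∀ S : Set ℤ, Inv d S → ∀ (φ : ℝ → ℝ) (b P : ℝ), Nice φ b P → ∀ X : ℝ, 2 ≤ X → ∀ m : ℕ,
      (m : ℝ) ^ 2 ≤ Real.log X / 6 → ∀ c c' : ℤ,
      |Wt φ S (3 ^ m) c X - Wt φ S (3 ^ m) c' X|
        ≤ C * (P * (b + 2) ^ 2) / (Real.log X) ^ B * (X / 3 ^ m) := by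
  classical
  obtain ⟨C, hC, he⟩ := all_equi B hd hd3
  refine ⟨C, hC, ?_⟩
  intro S hS φ b P h X hX m hm c c'
  obtain ⟨n, hn1, hbn, hn2, hn3⟩ := nterms h.hb hX
  have hX0 : 0 < X := by linarith
  have hb0 := h.hb
  have hP0 := h.hP
  have hXn : X ≤ n := by nlinarith
  have hlX : 0 < Real.log X := Real.log_pos (by linarith)
  have hlog : Real.log X ≤ Real.log ((n : ℝ) + 1) := Real.log_le_log hX0 (by linarith)
  rw [Wt_eq h S (3 ^ m) c hX0 (by linarith : b * X ≤ (n : ℝ) + 1),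
    Wt_eq h S (3 ^ m) c' hX0 (by linarith : b * X ≤ (n : ℝ) + 1),
    sum_wc (fun x => φ (x / X)), sum_wc (fun x => φ (x / X)), ← sum_sub_distrib]
  set H : ℝ := C / (Real.log ((n : ℝ) + 1)) ^ B * (((n : ℝ) + 1) / 3 ^ m) with hH
  have hH0 : 0 ≤ H := by
    have : 0 < Real.log ((n : ℝ) + 1) := by linarith
    positivity
  have key := abel (f := fun i : ℕ => φ (((i : ℝ) + 1) / X))
    (g := fun i : ℕ => (if ((i : ℤ) + 1 ∈ S ∧ (3 : ℤ) ^ m ∣ (i : ℤ) + 1 - c) then (1 : ℝ) else 0) -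
      (if ((i : ℤ) + 1 ∈ S ∧ (3 : ℤ) ^ m ∣ (i : ℤ) + 1 - c') then (1 : ℝ) else 0))
    (n := n) (L := P / X) (H := H) hH0 (by
      intro i
      refine (h.lip _ _).trans ?_
      have e : (((i + 1 : ℕ) : ℝ) + 1) / X - ((i : ℝ) + 1) / X = 1 / X := by
        push_cast; ring
      rw [e, abs_of_pos (by positivity : (0 : ℝ) < 1 / X)]
      exact le_of_eq (by ring)) (by
      show φ ((((n - 1 : ℕ) : ℝ) + 1) / X) = 0
      apply h.van
      rw [Nat.cast_sub hn1, Nat.cast_one, sub_add_cancel, le_div_iff₀ hX0]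
      exact hbn) (by
      intro j hj
      rw [sum_sub_distrib, ← card_wc, ← card_wc]
      have hj' : (j : ℝ) ≤ n := by exact_mod_cast hj
      exact he S hS ((n : ℝ) + 1) (by linarith) m (by linarith) c c' ((j : ℝ) + 1) (by positivity)
        (by linarith))
  have e : ∑ i ∈ range n, ((if ((i : ℤ) + 1 ∈ S ∧ (3 : ℤ) ^ m ∣ (i : ℤ) + 1 - c) then
      φ ((((i : ℤ) + 1 : ℤ) : ℝ) / X) else 0) -
      (if ((i : ℤ) + 1 ∈ S ∧ (3 : ℤ) ^ m ∣ (i : ℤ) + 1 - c') then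
      φ ((((i : ℤ) + 1 : ℤ) : ℝ) / X) else 0)) =
      ∑ i ∈ range n, φ (((i : ℝ) + 1) / X) *
        ((if ((i : ℤ) + 1 ∈ S ∧ (3 : ℤ) ^ m ∣ (i : ℤ) + 1 - c) then (1 : ℝ) else 0) -
      (if ((i : ℤ) + 1 ∈ S ∧ (3 : ℤ) ^ m ∣ (i : ℤ) + 1 - c') then (1 : ℝ) else 0)) := by
    apply sum_congr rfl
    intro i _
    push_cast
    split_ifs <;> ring
  rw [e]
  refine key.trans ?_
  have h1 : H ≤ C / (Real.log X) ^ B * ((b + 2) * X / 3 ^ m) := by
    rw [hH]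
    apply mul_le_mul _ _ (by positivity) (by positivity)
    · exact div_le_div_of_nonneg_left hC.le (by positivity) (pow_le_pow_left₀ hlX.le hlog B)
    · exact div_le_div_of_nonneg_right hn3 (by positivity)
  calc (n : ℝ) * (P / X * H) ≤ ((b + 2) * X) * (P / X * (C / (Real.log X) ^ B * ((b + 2) * X / 3 ^ m))) := by
        apply mul_le_mul (by linarith) _ (by positivity) (by positivity)
        exact mul_le_mul_of_nonneg_left h1 (by positivity)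
    _ = _ := by field_simp

/-- partition into residue classes -/
theorem sum_classes (F : ℤ → ℝ) (S : Set ℤ) (Y : ℝ) {q : ℤ} (hq : 0 < q) :
    ∑ x ∈ wc S 1 Y 1 0, F x = ∑ c ∈ Ico 0 q, ∑ x ∈ wc S 1 Y q c, F x := by
  classical
  rw [← sum_fiberwise_of_maps_to (s := wc S 1 Y 1 0) (t := Ico 0 q) (g := fun x => x % q)
    (fun x _ => by rw [mem_Ico]; exact ⟨Int.emod_nonneg _ hq.ne', Int.emod_lt_of_pos _ hq⟩)]
  apply sum_congr rfl
  intro c hc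
  rw [mem_Ico] at hc
  apply sum_congr _ (fun _ _ => rfl)
  ext x
  rw [mem_filter, mem_wc, mem_wc]
  have h1 : x % q = c ↔ q ∣ x - c := by
    constructor
    · intro h
      rw [← h]
      exact Int.dvd_self_sub_emod
    · intro h
      have h3 : c % q = x % q := Int.modEq_iff_dvd.2 h
      rw [← h3, Int.emod_eq_of_lt hc.1 hc.2]
  rw [h1]
  constructor
  · rintro ⟨⟨h2, h3, _⟩, h4⟩
    exact ⟨h2, h3, h4⟩
  · rintro ⟨h2, h3, h4⟩
    exact ⟨⟨h2, h3, one_dvd _⟩, h4⟩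

theorem Wt_classes (h : Nice φ b P) (S : Set ℤ) {X : ℝ} (hX : 0 < X) {q : ℤ} (hq : 0 < q) :
    Wt φ S 1 0 X = ∑ c ∈ Ico 0 q, Wt φ S q c X := by
  rw [Wt_eq h S 1 0 hX le_rfl, sum_classes _ S _ hq]
  apply sum_congr rfl
  intro c _
  rw [Wt_eq h S q c hX le_rfl]

/-- each class has its share -/
theorem avg_W (B : ℕ) {d : ℤ} (hd : Odd d) (hd3 : IsCoprime d 3) : ∃ C : ℝ, 0 < C ∧
    ∀ S : Set ℤ, Inv d S → ∀ (φ : ℝ → ℝ) (b P : ℝ), Nice φ b P → ∀ X : ℝ, 2 ≤ X → ∀ m : ℕ,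
      (m : ℝ) ^ 2 ≤ Real.log X / 6 → ∀ c : ℤ,
      |Wt φ S (3 ^ m) c X - Wt φ S 1 0 X / 3 ^ m|
        ≤ C * (P * (b + 2) ^ 2) / (Real.log X) ^ B * (X / 3 ^ m) := by
  obtain ⟨C, hC, he⟩ := equi_W B hd hd3
  refine ⟨C, hC, ?_⟩
  intro S hS φ b P h X hX m hm c
  have hX0 : 0 < X := by linarith
  have hq : (0 : ℤ) < 3 ^ m := by positivity
  have hqR : (0 : ℝ) < 3 ^ m := by positivity
  set E := C * (P * (b + 2) ^ 2) / (Real.log X) ^ B * (X / 3 ^ m) with hE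
  have hcard : ((Ico (0 : ℤ) (3 ^ m)).card : ℝ) = 3 ^ m := by
    rw [Int.card_Ico, sub_zero]
    have : (((3 : ℤ) ^ m).toNat : ℤ) = 3 ^ m := Int.toNat_of_nonneg hq.le
    exact_mod_cast this
  have e : Wt φ S (3 ^ m) c X - Wt φ S 1 0 X / 3 ^ m =
      (∑ c' ∈ Ico 0 ((3 : ℤ) ^ m), (Wt φ S (3 ^ m) c X - Wt φ S (3 ^ m) c' X)) / 3 ^ m := by
    rw [sum_sub_distrib, sum_const, nsmul_eq_mul, hcard, ← Wt_classes h S hX0 hq]
    field_simp
  rw [e, abs_div, abs_of_pos hqR, div_le_iff₀ hqR]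
  refine (Finset.abs_sum_le_sum_abs _ _).trans ?_
  calc ∑ c' ∈ Ico 0 ((3 : ℤ) ^ m), |Wt φ S (3 ^ m) c X - Wt φ S (3 ^ m) c' X|
      ≤ ∑ c' ∈ Ico 0 ((3 : ℤ) ^ m), E := sum_le_sum fun c' _ => he S hS φ b P h X hX m hm c c'
    _ = E * 3 ^ m := by rw [sum_const, nsmul_eq_mul, hcard]; ring

end Pool.Agent.P8H74.SM
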