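import Pool.Agent.P8H74.SM.Sm
import Pool.Agent.P8H74.SM.Ana

/-! Smooth weights: the harmonic relation and the tower of derivatives. -/

set_option autoImplicit false

namespace Pool.Agent.P8H74.SM

open Pool.Agent.H499R2.ND Pool.Agent.H320R2.PD Finset

variable {φ : ℝ → ℝ} {b P : ℝ}

/-- parity decomposition of sums -/
theorem sum_parity {d : ℤ} {S : Set ℤ} (h : Inv d S) (F : ℤ → ℝ) (Y : ℝ) :
    ∑ x ∈ wc S 1 Y 1 0, F x = ∑ x ∈ cls S 1 Y 0 1 0, F x +
      ∑ y ∈ wc S 1 (Y / 2) 1 0, F (2 * y) := by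
  classical
  rw [← sum_filter_add_sum_filter_not (wc S 1 Y 1 0) (fun x => Odd x)]
  congr 1
  · apply sum_congr _ (fun _ _ => rfl)
    ext x
    rw [mem_filter, mem_wc, mem_cls]
    constructor
    · rintro ⟨⟨h1, h2, _⟩, h3⟩
      exact ⟨h1, h3, h2, by simp⟩
    · rintro ⟨h1, h2, h3, _⟩
      exact ⟨⟨h1, h3, one_dvd _⟩, h2⟩
  · symm
    apply sum_nbij (i := fun y => 2 * y)
    · intro y hy
      rw [mem_wc] at hy
      rw [mem_filter, mem_wc]
      push_cast
      refine ⟨⟨⟨by linarith [hy.1.1], by linarith [hy.1.2]⟩, (h.two y).2 hy.2.1, one_dvd _⟩, ?_⟩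
      rw [Int.not_odd_iff_even]
      exact even_two_mul y
    · intro x _ y _ hxy
      simp only at hxy
      omega
    · intro x hx
      rw [mem_coe, mem_filter, mem_wc, Int.not_odd_iff_even] at hx
      obtain ⟨⟨h1, h2, _⟩, y, hy⟩ := hx
      have hxy : (x : ℝ) = 2 * y := by rw [hy]; push_cast; ring
      have hy1 : 1 ≤ y := by
        have : (1 : ℤ) ≤ x := by exact_mod_cast h1.1
        omega
      refine ⟨y, ?_, by simp only; omega⟩
      rw [mem_coe, mem_wc]
      refine ⟨⟨by exact_mod_cast hy1, by linarith [h1.2]⟩, ?_, one_dvd _⟩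
      rw [← h.two, show 2 * y = x by omega]; exact h2
    · intro y _; rfl

/-- the odd elements and their images -/
theorem sum_odd {d : ℤ} (hd : d = 1 ∨ d = -1) {S : Set ℤ} (h : Inv d S) (F : ℤ → ℝ) (Y : ℝ) :
    ∑ x ∈ cls S 1 Y 0 1 0, F x =
      ∑ y ∈ wc S 1 ((3 * Y + d) / 2) 3 (2 * d), F ((2 * y - d) / 3) := by
  classical
  have hodd : Odd d := by rcases hd with rfl | rfl <;> decide
  apply sum_nbij' (i := fun n => (3 * n + d) / 2) (j := fun y => (2 * y - d) / 3)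
  · intro n hn
    rw [mem_cls] at hn
    obtain ⟨h1, h2, h3, _⟩ := hn
    have hev : 2 * ((3 * n + d) / 2) = 3 * n + d := by
      obtain ⟨t, ht⟩ := h2; obtain ⟨s, hs⟩ := hodd; omega
    have hR : (2 : ℝ) * (((3 * n + d) / 2 : ℤ) : ℝ) = 3 * n + d := by exact_mod_cast hev
    have hn1 : (1 : ℤ) ≤ n := by exact_mod_cast h1.1
    rw [mem_wc]
    refine ⟨⟨?_, by linarith [h1.2]⟩, (h.odd h2 hev).1 h3, ?_⟩
    · have : (1 : ℤ) ≤ (3 * n + d) / 2 := by rcases hd with rfl | rfl <;> omega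
      exact_mod_cast this
    · exact ⟨2 * n - ((3 * n + d) / 2), by omega⟩
  · intro y hy
    rw [mem_wc] at hy
    obtain ⟨h1, h2, t, ht⟩ := hy
    have hn : 2 * y = 3 * (2 * t + d) + d := by omega
    have e : (2 * y - d) / 3 = 2 * t + d := by omega
    have hod : Odd (2 * t + d) := (even_two_mul t).add_odd hodd
    have hR : (2 : ℝ) * y = 3 * ((2 * t + d : ℤ) : ℝ) + d := by exact_mod_cast hn
    have hy1 : (1 : ℤ) ≤ y := by exact_mod_cast h1.1
    rw [e, mem_cls]
    refine ⟨⟨?_, by linarith [h1.2]⟩, hod, (h.odd hod hn).2 h2, by simp⟩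
    have : (1 : ℤ) ≤ 2 * t + d := by rcases hd with rfl | rfl <;> omega
    exact_mod_cast this
  · intro n hn
    rw [mem_cls] at hn
    obtain ⟨h1, h2, h3, _⟩ := hn
    have hev : 2 * ((3 * n + d) / 2) = 3 * n + d := by
      obtain ⟨t, ht⟩ := h2; obtain ⟨s, hs⟩ := hodd; omega
    omega
  · intro y hy
    rw [mem_wc] at hy
    obtain ⟨h1, h2, t, ht⟩ := hy
    omega
  · intro n hn
    rw [mem_cls] at hn
    obtain ⟨h1, h2, h3, _⟩ := hn
    have hev : 2 * ((3 * n + d) / 2) = 3 * n + d := by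
      obtain ⟨t, ht⟩ := h2; obtain ⟨s, hs⟩ := hodd; omega
    congr 1
    omega

theorem log_pow_le (B : ℕ) {X : ℝ} (hX : 1 ≤ X) : (Real.log X) ^ B ≤ B.factorial * X := by
  have h0 : 0 ≤ Real.log X := Real.log_nonneg hX
  have := Real.pow_div_factorial_le_exp (Real.log X) h0 B
  rw [Real.exp_log (by linarith), div_le_iff₀ (by positivity)] at this
  linarith

/-- THE HARMONIC RELATION with smooth weights -/
theorem harm_W (B : ℕ) {d : ℤ} (hd : d = 1 ∨ d = -1) : ∃ C : ℝ, 0 < C ∧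
    ∀ S : Set ℤ, Inv d S → ∀ (φ : ℝ → ℝ) (b P : ℝ), Nice φ b P → ∀ X : ℝ, 2 ≤ X →
      |Wt φ S 1 0 X - Wt φ S 1 0 (X / 2) - Wt φ S 1 0 (3 * X / 2) / 3|
        ≤ C * (P * (b + 2) ^ 2) / (Real.log X) ^ B * X := by
  have hodd : Odd d := by rcases hd with rfl | rfl <;> decide
  have hcop : IsCoprime d 3 := by
    rcases hd with rfl | rfl
    · exact isCoprime_one_left
    · exact isCoprime_one_left.neg_left
  obtain ⟨C, hC, he⟩ := avg_W B hodd hcop
  refine ⟨C + B.factorial + 3 * 6 ^ B, by positivity, ?_⟩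
  intro S hS φ b P h X hX
  have hX0 : 0 < X := by linarith
  have hb0 := h.hb
  have hP0 := h.hP
  set t := Real.log X with ht
  have ht0 : 0 < t := Real.log_pos (by linarith)
  rcases lt_or_ge t 6 with hsm | hbig
  · have h1 := Wt_abs_le h S 1 0 hX0
    have h2 := Wt_abs_le h S 1 0 (by linarith : 0 < X / 2)
    have h3 := Wt_abs_le h S 1 0 (by linarith : 0 < 3 * X / 2)
    have h4 : |Wt φ S 1 0 X - Wt φ S 1 0 (X / 2) - Wt φ S 1 0 (3 * X / 2) / 3| ≤
        3 * (P * b * X) := by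
      have hpb : 0 ≤ P * b * X := by positivity
      have e1 : P * b * (X / 2) = P * b * X / 2 := by ring
      have e2 : P * b * (3 * X / 2) = 3 * (P * b * X) / 2 := by ring
      rw [e1] at h2
      rw [e2] at h3
      rw [abs_le] at h1 h2 h3 ⊢
      constructor
      · linarith [h1.1, h1.2, h2.1, h2.2, h3.1, h3.2]
      · linarith [h1.1, h1.2, h2.1, h2.2, h3.1, h3.2]
    refine h4.trans ?_
    rw [div_mul_eq_mul_div, le_div_iff₀ (by positivity)]
    have h5 : t ^ B ≤ 6 ^ B := pow_le_pow_left₀ ht0.le hsm.le B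
    have h6 : b ≤ (b + 2) ^ 2 := by nlinarith
    calc 3 * (P * b * X) * t ^ B ≤ 3 * (P * b * X) * 6 ^ B :=
          mul_le_mul_of_nonneg_left h5 (by positivity)
      _ = (3 * 6 ^ B) * (P * b) * X := by ring
      _ ≤ (3 * 6 ^ B) * (P * (b + 2) ^ 2) * X := by gcongr
      _ ≤ (C + B.factorial + 3 * 6 ^ B) * (P * (b + 2) ^ 2) * X := by
          gcongr
          have : (0 : ℝ) ≤ B.factorial := by positivity
          linarith
  -- the main case
  set Y := b * X + 1 with hY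
  have hb1 : 0 < b := by linarith
  have hbX : 0 < b * X := by positivity
  have e1 : Wt φ S 1 0 X = ∑ x ∈ cls S 1 Y 0 1 0, φ (x / X) + Wt φ S 1 0 (X / 2) := by
    rw [Wt_eq h S 1 0 hX0 (by linarith : b * X ≤ Y), sum_parity hS,
      Wt_eq h S 1 0 (by linarith : 0 < X / 2) (by rw [hY]; linarith : b * (X / 2) ≤ Y / 2)]
    congr 1
    apply sum_congr rfl
    intro y _
    congr 1
    push_cast
    field_simp
  have hdR : |(d : ℝ)| = 1 := by rcases hd with rfl | rfl <;> simp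
  have hdR' := abs_le.1 hdR.le
  have e2 : Wt φ S 3 (2 * d) (3 * X / 2) =
      ∑ y ∈ wc S 1 ((3 * Y + d) / 2) 3 (2 * d), φ (y / (3 * X / 2)) := by
    apply Wt_eq h S 3 (2 * d) (by linarith)
    rw [hY]
    linarith [hdR'.1]
  have e3 := sum_odd hd hS (fun n => φ (n / X)) Y
  have h1 : |∑ x ∈ cls S 1 Y 0 1 0, φ (x / X) - Wt φ S 3 (2 * d) (3 * X / 2)| ≤ P * (b + 2) := by
    rw [e2, e3, ← sum_sub_distrib]
    refine (Finset.abs_sum_le_sum_abs _ _).trans ?_
    have h2 : ∀ y ∈ wc S 1 ((3 * Y + d) / 2) 3 (2 * d),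
        |φ ((((2 * y - d) / 3 : ℤ) : ℝ) / X) - φ (y / (3 * X / 2))| ≤ P / (3 * X) := by
      intro y hy
      rw [mem_wc] at hy
      obtain ⟨_, _, t, ht⟩ := hy
      refine (h.lip _ _).trans ?_
      have hn : 3 * ((2 * y - d) / 3) = 2 * y - d := by omega
      have hR : (3 : ℝ) * (((2 * y - d) / 3 : ℤ) : ℝ) = 2 * y - d := by exact_mod_cast hn
      have e : (((2 * y - d) / 3 : ℤ) : ℝ) / X - y / (3 * X / 2) = -(d / (3 * X)) := by
        field_simp
        linarith
      rw [e, abs_neg, abs_div, hdR, abs_of_pos (by positivity : 0 < 3 * X)]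
      exact le_of_eq (by ring)
    calc _ ≤ ∑ y ∈ wc S 1 ((3 * Y + d) / 2) 3 (2 * d), P / (3 * X) := sum_le_sum h2
      _ = (wc S 1 ((3 * Y + d) / 2) 3 (2 * d)).card * (P / (3 * X)) := by
          rw [sum_const, nsmul_eq_mul]
      _ ≤ ((3 * Y + d) / 2) * (P / (3 * X)) := by
          apply mul_le_mul_of_nonneg_right _ (by positivity)
          apply wc_le_pos
          rw [hY]; linarith [hdR'.1]
      _ ≤ (3 * (b + 2) * X) * (P / (3 * X)) := by
          apply mul_le_mul_of_nonneg_right _ (by positivity)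
          rw [hY]
          nlinarith [hdR'.2]
      _ = P * (b + 2) := by field_simp
  have hlog : t ≤ Real.log (3 * X / 2) := Real.log_le_log hX0 (by linarith)
  have h2 := he S hS φ b P h (3 * X / 2) (by linarith) 1 (by
    norm_num
    linarith) (2 * d)
  simp only [pow_one] at h2
  have h3 : C * (P * (b + 2) ^ 2) / (Real.log (3 * X / 2)) ^ B * (3 * X / 2 / 3) ≤
      C * (P * (b + 2) ^ 2) / t ^ B * X := by
    apply mul_le_mul _ (by linarith) (by positivity) (by positivity)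
    exact div_le_div_of_nonneg_left (by positivity) (by positivity)
      (pow_le_pow_left₀ ht0.le hlog B)
  have h4 : P * (b + 2) ≤ B.factorial * (P * (b + 2) ^ 2) / t ^ B * X := by
    rw [div_mul_eq_mul_div, le_div_iff₀ (by positivity)]
    have h5 := log_pow_le B (by linarith : 1 ≤ X)
    have h6 : b + 2 ≤ (b + 2) ^ 2 := by nlinarith
    calc P * (b + 2) * t ^ B ≤ P * (b + 2) ^ 2 * (B.factorial * X) := by
          apply mul_le_mul _ h5 (by positivity) (by positivity)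
          exact mul_le_mul_of_nonneg_left h6 hP0.le
      _ = _ := by ring
  have h5 : 0 ≤ (3 * 6 ^ B) * (P * (b + 2) ^ 2) / t ^ B * X := by positivity
  have e4 : (C + B.factorial + 3 * 6 ^ B) * (P * (b + 2) ^ 2) / t ^ B * X =
      C * (P * (b + 2) ^ 2) / t ^ B * X + B.factorial * (P * (b + 2) ^ 2) / t ^ B * X +
      (3 * 6 ^ B) * (P * (b + 2) ^ 2) / t ^ B * X := by ring
  have e5 : Wt φ S 1 0 X - Wt φ S 1 0 (X / 2) - Wt φ S 1 0 (3 * X / 2) / 3 =
      (∑ x ∈ cls S 1 Y 0 1 0, φ (x / X) - Wt φ S 3 (2 * d) (3 * X / 2)) +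
      (Wt φ S 3 (2 * d) (3 * X / 2) - Wt φ S 1 0 (3 * X / 2) / 3) := by
    rw [e1]; ring
  rw [e4, e5]
  refine (abs_add_le _ _).trans ?_
  linarith

/-- the normalised weighted count -/
noncomputable def Gf (φ : ℝ → ℝ) (S : Set ℤ) (t : ℝ) : ℝ :=
  Real.exp (-t) * Wt φ S 1 0 (Real.exp t)

/-- the operator of differentiation -/
noncomputable def Dop (φ : ℝ → ℝ) (x : ℝ) : ℝ := -φ x - x * deriv φ x

theorem Gf_deriv (h : Nice φ b P) {b' P' : ℝ} (h' : Nice (Dop φ) b' P') (hdif : Differentiable ℝ φ)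
    (S : Set ℤ) (t : ℝ) : HasDerivAt (Gf φ S) (Gf (Dop φ) S t) t := by
  set Y := max b b' * Real.exp (t + 1) with hY
  have hloc : Gf φ S =ᶠ[nhds t] fun u => ∑ x ∈ wc S 1 Y 1 0, Real.exp (-u) * φ (x / Real.exp u) := by
    filter_upwards [Iio_mem_nhds (by linarith : t < t + 1)] with u hu
    rw [Gf, Wt_eq h S 1 0 (Real.exp_pos u) (Y := Y) (by
      rw [hY]
      apply mul_le_mul (le_max_left _ _) (Real.exp_le_exp.2 (le_of_lt hu)) (Real.exp_pos u).le
      exact le_trans (by linarith [h.hb]) (le_max_left _ _)), mul_sum]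
  have e : Gf (Dop φ) S t = ∑ x ∈ wc S 1 Y 1 0, Real.exp (-t) * Dop φ (x / Real.exp t) := by
    rw [Gf, Wt_eq h' S 1 0 (Real.exp_pos t) (Y := Y) (by
      rw [hY]
      apply mul_le_mul (le_max_right _ _) (Real.exp_le_exp.2 (by linarith)) (Real.exp_pos t).le
      exact le_trans (by linarith [h'.hb]) (le_max_right _ _)), mul_sum]
  rw [e]
  apply HasDerivAt.congr_of_eventuallyEq _ hloc
  apply HasDerivAt.fun_sum
  intro x _
  have h1 : HasDerivAt (fun u : ℝ => Real.exp (-u)) (-Real.exp (-t)) t := by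
    have := (hasDerivAt_neg t).exp
    simpa using this
  have h2 : HasDerivAt (fun u : ℝ => (x : ℝ) / Real.exp u) (-((x : ℝ) / Real.exp t)) t := by
    have h3 := h1.const_mul (x : ℝ)
    have e1 : (fun u : ℝ => (x : ℝ) / Real.exp u) = fun u => (x : ℝ) * Real.exp (-u) := by
      funext u; rw [Real.exp_neg, div_eq_mul_inv]
    have e2 : -((x : ℝ) / Real.exp t) = (x : ℝ) * -Real.exp (-t) := by
      rw [Real.exp_neg, div_eq_mul_inv]; ring
    rw [e1, e2]
    exact h3
  have h3 : HasDerivAt φ (deriv φ ((x : ℝ) / Real.exp t)) ((x : ℝ) / Real.exp t) :=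
    (hdif _).hasDerivAt
  have h4 := h3.comp t h2
  have h5 := h1.mul h4
  have e3 : Real.exp (-t) * Dop φ (x / Real.exp t) =
      -Real.exp (-t) * (φ ∘ fun u : ℝ => (x : ℝ) / Real.exp u) t +
        Real.exp (-t) * (deriv φ (x / Real.exp t) * -(x / Real.exp t)) := by
    show Real.exp (-t) * (-φ (x / Real.exp t) - x / Real.exp t * deriv φ (x / Real.exp t)) =
      -Real.exp (-t) * φ (x / Real.exp t) + Real.exp (-t) * (deriv φ (x / Real.exp t) * -(x / Real.exp t))
    ring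
  rw [e3]
  exact h5

theorem Gf_bd (h : Nice φ b P) (S : Set ℤ) (t : ℝ) : |Gf φ S t| ≤ P * b := by
  rw [Gf, abs_mul, abs_of_pos (Real.exp_pos _)]
  have h1 := Wt_abs_le h S 1 0 (Real.exp_pos t)
  calc Real.exp (-t) * |Wt φ S 1 0 (Real.exp t)| ≤ Real.exp (-t) * (P * b * Real.exp t) :=
        mul_le_mul_of_nonneg_left h1 (Real.exp_pos _).le
    _ = P * b * (Real.exp (-t) * Real.exp t) := by ring
    _ = P * b := by rw [← Real.exp_add, neg_add_cancel, Real.exp_zero, mul_one]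

theorem Gf_harm (B : ℕ) {d : ℤ} (hd : d = 1 ∨ d = -1) : ∃ C : ℝ, 0 < C ∧
    ∀ S : Set ℤ, Inv d S → ∀ (φ : ℝ → ℝ) (b P : ℝ), Nice φ b P → ∀ t : ℝ, 1 ≤ t →
      |Gf φ S t - (Gf φ S (t - Real.log 2) + Gf φ S (t + Real.log (3 / 2))) / 2| ≤
        C * (P * (b + 2) ^ 2) / t ^ B := by
  obtain ⟨C, hC, he⟩ := harm_W B hd
  refine ⟨C, hC, ?_⟩
  intro S hS φ b P h t ht
  have hl2 := Real.log_two_lt_d9
  have hX : 2 ≤ Real.exp t := by linarith [Real.add_one_le_exp t]
  have h1 := he S hS φ b P h (Real.exp t) hX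
  rw [Real.log_exp] at h1
  have e1 : Real.exp (t - Real.log 2) = Real.exp t / 2 := by
    rw [Real.exp_sub, Real.exp_log (by norm_num)]
  have e1' : Real.exp (-(t - Real.log 2)) = 2 * Real.exp (-t) := by
    rw [neg_sub, sub_eq_add_neg, Real.exp_add, Real.exp_log (by norm_num)]
  have e2 : Real.exp (t + Real.log (3 / 2)) = 3 * Real.exp t / 2 := by
    rw [Real.exp_add, Real.exp_log (by norm_num)]; ring
  have e2' : Real.exp (-(t + Real.log (3 / 2))) = 2 / 3 * Real.exp (-t) := by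
    rw [neg_add, Real.exp_add, Real.exp_neg (Real.log (3 / 2)), Real.exp_log (by norm_num)]; ring
  unfold Gf
  rw [e1, e1', e2, e2']
  have e3 : Real.exp (-t) * Wt φ S 1 0 (Real.exp t) -
      (2 * Real.exp (-t) * Wt φ S 1 0 (Real.exp t / 2) +
        2 / 3 * Real.exp (-t) * Wt φ S 1 0 (3 * Real.exp t / 2)) / 2 =
      Real.exp (-t) * (Wt φ S 1 0 (Real.exp t) - Wt φ S 1 0 (Real.exp t / 2) -
        Wt φ S 1 0 (3 * Real.exp t / 2) / 3) := by ring
  rw [e3, abs_mul, abs_of_pos (Real.exp_pos _)]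
  calc _ ≤ Real.exp (-t) * (C * (P * (b + 2) ^ 2) / t ^ B * Real.exp t) :=
        mul_le_mul_of_nonneg_left h1 (Real.exp_pos _).le
    _ = C * (P * (b + 2) ^ 2) / t ^ B * (Real.exp (-t) * Real.exp t) := by ring
    _ = _ := by rw [← Real.exp_add, neg_add_cancel, Real.exp_zero, mul_one]

/-- smooth functions with compact support are nice -/
theorem exists_nice (h1 : ContDiff ℝ (⊤ : ℕ∞) φ) (h2 : HasCompactSupport φ) :
    ∃ b P : ℝ, Nice φ b P := by
  obtain ⟨C, hC⟩ := h1.lipschitzWith_of_hasCompactSupport h2 (by simp)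
  obtain ⟨M, hM⟩ := h2.exists_bound_of_continuous h1.continuous
  obtain ⟨R, hR⟩ := h2.isCompact.isBounded.subset_closedBall 0
  refine ⟨|R| + 1, |M| + C + 1, by linarith [abs_nonneg R], by positivity, ?_, ?_, ?_⟩
  · intro x hx
    apply image_eq_zero_of_notMem_tsupport
    intro hmem
    have h3 := hR hmem
    rw [mem_closedBall_zero_iff, Real.norm_eq_abs] at h3
    have h4 := le_abs_self x
    have h5 := le_abs_self R
    linarith
  · intro x
    have h3 := hM x
    rw [Real.norm_eq_abs] at h3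
    have h4 := le_abs_self M
    have h5 : (0 : ℝ) ≤ C := C.2
    linarith
  · intro x y
    have h3 := hC.dist_le_mul x y
    rw [Real.dist_eq, Real.dist_eq] at h3
    have h4 : (C : ℝ) * |x - y| ≤ (|M| + C + 1) * |x - y| :=
      mul_le_mul_of_nonneg_right (by linarith [abs_nonneg M]) (abs_nonneg _)
    linarith

theorem Dop_smooth (h1 : ContDiff ℝ (⊤ : ℕ∞) φ) : ContDiff ℝ (⊤ : ℕ∞) (Dop φ) := by
  have h2 : ContDiff ℝ (⊤ : ℕ∞) (deriv φ) := by
    apply ContDiff.deriv' (n := (⊤ : ℕ∞))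
    exact h1
  exact (h1.neg).sub (contDiff_id.mul h2)

theorem Dop_supp (h2 : HasCompactSupport φ) : HasCompactSupport (Dop φ) := by
  apply h2.mono'
  intro x hx
  by_contra hcon
  apply hx
  have h3 : φ x = 0 := image_eq_zero_of_notMem_tsupport hcon
  have h4 : deriv φ x = 0 := by
    have h5 : x ∉ tsupport (deriv φ) := fun h => hcon (tsupport_deriv_subset h)
    exact image_eq_zero_of_notMem_tsupport h5
  show -φ x - x * deriv φ x = 0
  rw [h3, h4]; ring

/-- the tower -/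
noncomputable def sq (φ : ℝ → ℝ) (k : ℕ) : ℝ → ℝ := Dop^[k] φ

theorem sq_succ (φ : ℝ → ℝ) (k : ℕ) : sq φ (k + 1) = Dop (sq φ k) :=
  Function.iterate_succ_apply' Dop k φ

theorem sq_smooth (h1 : ContDiff ℝ (⊤ : ℕ∞) φ) (k : ℕ) : ContDiff ℝ (⊤ : ℕ∞) (sq φ k) := by
  induction k with
  | zero => exact h1
  | succ k ih => rw [sq_succ]; exact Dop_smooth ih

theorem sq_supp (h2 : HasCompactSupport φ) (k : ℕ) : HasCompactSupport (sq φ k) := by
  induction k with
  | zero => exact h2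
  | succ k ih => rw [sq_succ]; exact Dop_supp ih

theorem tower {d : ℤ} (hd : d = 1 ∨ d = -1) (h1 : ContDiff ℝ (⊤ : ℕ∞) φ) (h2 : HasCompactSupport φ) :
    ∃ (M : ℕ → ℝ) (K : ℕ → ℕ → ℝ), ∀ S : Set ℤ, Inv d S → Tower M K (fun k => Gf (sq φ k) S) := by
  choose b P hn using fun k => exists_nice (sq_smooth h1 k) (sq_supp h2 k)
  choose C hC he using fun B => Gf_harm B hd
  refine ⟨fun k => P k * b k, fun k B => C B * (P k * (b k + 2) ^ 2), fun S hS => ⟨?_, ?_, ?_⟩⟩
  · intro k t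
    have h3 := hn (k + 1)
    rw [sq_succ] at h3
    have h4 := Gf_deriv (hn k) h3 ((sq_smooth h1 k).differentiable (by simp)) S t
    show HasDerivAt (Gf (sq φ k) S) (Gf (sq φ (k + 1)) S t) t
    rw [sq_succ]
    exact h4
  · intro k t _
    exact Gf_bd (hn k) S t
  · intro k B t ht
    exact he B S hS (sq φ k) (b k) (P k) (hn k) t ht

end Pool.Agent.P8H74.SM
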